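import Pool.Agent.Helper45.PD.Deg
import Pool.Agent.Helper45.TW.SAa

/-!
# Project PD: `x - α` has a simple zero on `MM`, if the multiplicity of `α` is divisible by `ℓ`
-/

set_option autoImplicit false
set_option linter.unusedSectionVars false

namespace Pool.Agent.PDL

open VC IntermediateField NumberField IsDedekindDomain Pool.Agent.SC
open Pool.Agent.L (L0 MM)
open Pool.Agent.LN (Geo Act)
open Pool.Agent.M (Moves OverPl inL0 Cg moves_comp moves_unique moves_one moves_congr)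
open Pool.Agent.ML (HasMu BPl)
open Pool.Agent.TOW (Au AuE exists_im moves_inv inv_fix)
open Pool.Agent.TOW.KX2aux (X_sub_ne X_sub_tr ord_sub_ne ord_sub_inf)

section geo

variable {k K0 E U : Type} [Field k] [NumberField k] [Field K0] [Field E] [Field U]
  [Algebra k K0] [Algebra k E] [Algebra E U] [Algebra K0 U] [Algebra k U] [IsScalarTower k E U]
  [IsScalarTower k K0 U] {ℓ : ℕ} {x : K0} {f : Polynomial k} {r : U}

theorem root_const {E U : Type} [Field E] [IsAlgClosed E] [Field U] [Algebra E U] {n : ℕ}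
    (hn : 0 < n) {ζ : U} (hζ : ζ ^ n = 1) : ∃ e : E, algebraMap E U e = ζ := by
  have h1 : IsIntegral E ζ := by
    refine ⟨Polynomial.X ^ n - Polynomial.C 1, Polynomial.monic_X_pow_sub_C _ hn.ne', ?_⟩
    simp [hζ]
  have h2 : (minpoly E ζ).degree = 1 :=
    IsAlgClosed.degree_eq_one_of_irreducible E (minpoly.irreducible h1)
  exact minpoly.mem_range_of_degree_eq_one E ζ h2

/-- `w` is multiplied by a root of unity, if `w ^ n` is fixed -/
theorem eig_root [IsAlgClosed E] {n : ℕ} (hn : 0 < n) {T : U ≃+* U} {w : U} (hw0 : w ≠ 0)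
    (hw : T (w ^ n) = w ^ n) : ∃ ζ : E, ζ ^ n = 1 ∧ T w = algebraMap E U ζ * w := by
  have h1 : (T w / w) ^ n = 1 := by
    rw [div_pow, ← map_pow, hw, div_self (pow_ne_zero n hw0)]
  obtain ⟨ζ, hζ⟩ := root_const (E := E) hn h1
  refine ⟨ζ, ?_, ?_⟩
  · apply (algebraMap E U).injective
    rw [map_pow, hζ, h1, map_one]
  · rw [hζ, div_mul_cancel₀ _ hw0]

theorem gal_L0 [CharZero U] (hN : Normal K0 U) : IsGalois (L0 E K0 (U := U)) U := by
  let L := L0 E K0 (U := U)
  let i : K0 →+* L := (algebraMap K0 U).codRestrict L.toSubfield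
    fun y => IntermediateField.subset_adjoin _ _ ⟨y, rfl⟩
  let _ : Algebra K0 L := i.toAlgebra
  have : IsScalarTower K0 L U := IsScalarTower.of_algebraMap_eq fun _ => rfl
  have : Normal L U := Normal.tower_top_of_normal K0 L U
  have : CharZero L := ⟨fun m n hmn => by
    have h1 := congrArg (algebraMap L U) hmn
    simpa using h1⟩
  exact ⟨⟩

/-- an element fixed by all automorphisms over `L0` is in `L0` -/
theorem HypL.mem_L0 (H : HypL E ℓ x f r) {w : U}
    (h : ∀ T : U ≃+* U, AuE E K0 T → T w = w) : w ∈ L0 E K0 (U := U) := by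
  have := H.chU
  have := gal_L0 (E := E) H.geo.normal
  obtain ⟨y, hy⟩ := (InfiniteGalois.mem_range_algebraMap_iff_fixed (k := L0 E K0 (U := U)) w).2
    fun σ => h (σ : U ≃+* U)
      { fixK := fun y => σ.commutes (⟨_, K_mem y⟩ : L0 E K0 (U := U))
        fixE := fun e => σ.commutes (⟨_, (L0 E K0 (U := U)).algebraMap_mem e⟩ : L0 E K0 (U := U)) }
  rw [← hy]
  exact y.2

/-- some automorphism over `L0` moves `r` -/
theorem HypL.exists_T (H : HypL E ℓ x f r) (hℓ : ℓ.Prime) :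
    ∃ (T : U ≃+* U) (ζ : E), AuE E K0 T ∧ IsPrimitiveRoot ζ ℓ ∧ T r = algebraMap E U ζ * r := by
  have hcl := H.geo.clE
  have h1 : ∃ T : U ≃+* U, AuE E K0 T ∧ T r ≠ r := by
    by_contra hcon
    push Not at hcon
    refine H.geo.rnot 1 one_pos hℓ.one_lt ?_
    rw [pow_one]
    exact H.mem_L0 hcon
  obtain ⟨T, hT, hr⟩ := h1
  obtain ⟨ζ, hζ, h2⟩ := eig_root (E := E) hℓ.pos (H.r_ne hℓ) (T := T) (by
    rw [H.geo.rpow]
    exact hT.fixK _)
  refine ⟨T, ζ, hT, ?_, h2⟩
  have : Fact ℓ.Prime := ⟨hℓ⟩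
  have h3 : orderOf ζ = ℓ := orderOf_eq_prime hζ fun h => hr (by rw [h2, h, map_one, one_mul])
  rw [← h3]
  exact IsPrimitiveRoot.orderOf ζ

theorem HypL.au_r (H : HypL E ℓ x f r) (hℓ : ℓ.Prime) {T : U ≃+* U} (hT : Au E K0 T) :
    ∃ ζ : E, ζ ^ ℓ = 1 ∧ T r = algebraMap E U ζ * r := by
  have hcl := H.geo.clE
  refine eig_root (E := E) hℓ.pos (H.r_ne hℓ) (T := T) ?_
  rw [H.geo.rpow]
  exact hT.fixK _

theorem HypL.au_MM (H : HypL E ℓ x f r) (hℓ : ℓ.Prime) {T : U ≃+* U} (hT : Au E K0 T) :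
    ∀ z ∈ MM E K0 r, T z ∈ MM E K0 r := by
  intro z hz
  refine IntermediateField.adjoin_induction (p := fun z _ => T z ∈ MM E K0 r) E ?_ ?_ ?_ ?_ ?_ hz
  · rintro _ (⟨y, rfl⟩ | hy)
    · rw [hT.fixK]
      exact L0_le_MM (K_mem y)
    · obtain ⟨ζ, -, h1⟩ := H.au_r hℓ hT
      rw [Set.mem_singleton_iff.1 hy, h1]
      exact mul_mem ((MM E K0 r).algebraMap_mem ζ) r_mem
  · intro e
    obtain ⟨e', he'⟩ := hT.presE e
    rw [he']
    exact (MM E K0 r).algebraMap_mem e'
  · intro a b _ _ ha hb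
    rw [map_add]; exact add_mem ha hb
  · intro a _ ha
    rw [map_inv₀]; exact inv_mem ha
  · intro a b _ _ ha hb
    rw [map_mul]; exact mul_mem ha hb

theorem auE_pow {T : U ≃+* U} (hT : AuE E K0 T) (i : ℕ) : AuE E K0 (T ^ i) := by
  induction i with
  | zero => exact AuE.one
  | succ i ih => rw [pow_succ]; exact ih.mul hT

/-- **unramified** -/
theorem HypL.unr (H : HypL E ℓ x f r) (hℓ : ℓ.Prime) {α : E}
    (hα : ℓ ∣ (f.map (algebraMap k E)).rootMultiplicity α) :
    ∃ P : Place E (MM E K0 r), XM E r x - algebraMap E (MM E K0 r) α ∈ P.ring.nonunits ∧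
      ord P.ring (XM E r x - algebraMap E (MM E K0 r) α) = 1 := by
  classical
  have hcl : IsAlgClosed E := H.geo.clE
  have hM := H.geo.cover.ff
  have hX := H.trM
  obtain ⟨m', hm'⟩ := hα
  obtain ⟨q, hq, hq0⟩ := Polynomial.exists_eq_pow_rootMultiplicity_mul_and_not_dvd
    (f.map (algebraMap k E)) (H.f_ne hℓ) α
  obtain ⟨T, ζ, hT, hζ, hTr⟩ := H.exists_T hℓ
  obtain ⟨t, ht⟩ : ∃ t, t = XM E r x - algebraMap E (MM E K0 r) α := ⟨_, rfl⟩
  have htt : Transcendental E t := by rw [ht]; exact X_sub_tr hX α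
  have ht0 : t ≠ 0 := by rw [ht]; exact X_sub_ne hX α
  obtain ⟨P₀, hP₀⟩ := FF.exists_place htt
  obtain ⟨s, hs⟩ : ∃ s : MM E K0 r, s = ⟨r, r_mem⟩ / t ^ m' := ⟨_, rfl⟩
  have hqne : q ≠ 0 := by
    rintro rfl
    exact hq0 (dvd_zero _)
  have hsl : s ^ ℓ = Polynomial.aeval (XM E r x) q := by
    rw [hs, div_pow, H.rpow', hq, map_mul, map_pow, map_sub, Polynomial.aeval_X,
      Polynomial.aeval_C, ← ht, hm', ← pow_mul, mul_comm m' ℓ, mul_comm (t ^ (ℓ * m')),
      mul_div_cancel_right₀ _ (pow_ne_zero _ ht0)]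
  have hq1 : Polynomial.aeval (XM E r x) q ≠ 0 := fun h => hqne (by
    by_contra h2
    exact hX ⟨q, h2, h⟩)
  have hs0 : s ≠ 0 := by
    rintro rfl
    rw [zero_pow hℓ.ne_zero] at hsl
    exact hq1 hsl.symm
  have hqα : q.rootMultiplicity α = 0 := by
    rw [Polynomial.rootMultiplicity_eq_zero_iff]
    intro h
    exact absurd (Polynomial.dvd_iff_isRoot.2 h) hq0
  -- the value of `s`
  have hords : ∀ P : Place E (MM E K0 r), t ∈ P.ring.nonunits → ord P.ring s = 0 := by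
    intro P hP
    have h1 := FF.ord_pow hM P hs0 ℓ
    rw [ht] at hP
    rw [hsl, ord_fin hM hX hP hqne, hqα, Nat.cast_zero, zero_mul] at h1
    have h2 : (ℓ : ℤ) ≠ 0 := by exact_mod_cast hℓ.ne_zero
    rcases mul_eq_zero.1 h1.symm with h3 | h3
    · exact absurd h3 h2
    · exact h3
  have hval : ∀ P : Place E (MM E K0 r), t ∈ P.ring.nonunits → ∃ ρ : E, ρ ≠ 0 ∧ Cg P.ring s ρ := by
    intro P hP
    have h1 := hords P hP
    obtain ⟨ρ, hρ⟩ := FF.exists_residue hM P ((FF.ord_nonneg_iff hM P hs0).1 h1.ge)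
    rw [ValuationSubring.mem_nonunits_iff] at hρ
    refine ⟨ρ, ?_, hρ⟩
    rintro rfl
    rw [map_zero, sub_zero, ← ValuationSubring.mem_nonunits_iff, ← FF.ord_pos_iff hM P hs0] at hρ
    omega
  obtain ⟨ρ, hρ0, hρ⟩ := hval P₀ hP₀
  -- the conjugate places
  have him : ∀ i : ℕ, ∃ P : Place E (MM E K0 r), Moves (T ^ i) _ P₀ P := fun i =>
    exists_im (H.au_MM hℓ (auE_pow hT i).au) (H.au_MM hℓ (auE_pow hT i).inv.au)
      (auE_pow hT i).inv.au.presE P₀
  choose P hPm using him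
  have hTr' : ∀ i : ℕ, (T ^ i) r = algebraMap E U (ζ ^ i) * r := by
    intro i
    induction i with
    | zero => simp
    | succ i ih =>
      rw [pow_succ']
      show T ((T ^ i) r) = _
      rw [ih, map_mul, hT.fixE, hTr, pow_succ, map_mul, mul_assoc]
  have hfixt : ∀ i : ℕ, (T ^ i) (t : U) = t := by
    intro i
    have h1 : (t : U) = algebraMap K0 U x - algebraMap E U α := by rw [ht]; rfl
    rw [h1, map_sub, (auE_pow hT i).fixK, (auE_pow hT i).fixE]
  have htP : ∀ i : ℕ, t ∈ (P i).ring.nonunits := by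
    intro i
    rw [ValuationSubring.mem_nonunits_iff]
    have h1 : Cg P₀.ring t (0 : E) := by
      unfold Cg
      rw [map_zero, sub_zero, ← ValuationSubring.mem_nonunits_iff]
      exact hP₀
    have h2 := (Moves.cg (σ := RingEquiv.refl E) (fun e => (auE_pow hT i).fixE e) (hPm i) t.2
      (by rw [hfixt]; exact t.2)).1 h1
    have h3 : (⟨(T ^ i) (t : U), by rw [hfixt]; exact t.2⟩ : MM E K0 r) = t :=
      Subtype.ext (hfixt i)
    rw [h3] at h2
    unfold Cg at h2
    rw [RingEquiv.refl_apply, map_zero, sub_zero] at h2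
    exact h2
  have hsP : ∀ i : ℕ, Cg (P i).ring (algebraMap E (MM E K0 r) (ζ ^ i) * s) ρ := by
    intro i
    have h1 : (T ^ i) (s : U) = ((algebraMap E (MM E K0 r) (ζ ^ i) * s : MM E K0 r) : U) := by
      have h2 : (s : U) = r / (t : U) ^ m' := by rw [hs]; rfl
      rw [h2, map_div₀, map_pow, hfixt, hTr' i]
      show _ = algebraMap E U (ζ ^ i) * (s : U)
      rw [h2, mul_div_assoc]
    have h2 := (Moves.cg (σ := RingEquiv.refl E) (fun e => (auE_pow hT i).fixE e) (hPm i) s.2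
      (by rw [h1]; exact Subtype.coe_prop _)).1 hρ
    have h3 : (⟨(T ^ i) (s : U), by rw [h1]; exact Subtype.coe_prop _⟩ : MM E K0 r) =
        algebraMap E (MM E K0 r) (ζ ^ i) * s := Subtype.ext h1
    rw [h3] at h2
    exact h2
  have hinj : Set.InjOn P (Finset.range ℓ) := by
    intro i hi j hj hij
    rw [Finset.coe_range, Set.mem_Iio] at hi hj
    obtain ⟨ρ', hρ'0, hρ'⟩ := hval (P i) (htP i)
    have h1 := (Pool.Agent.M.cg_const (V := (P i).ring) (ζ ^ i)).mul (P i).algebraMap_mem hρ'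
    have h2 := (Pool.Agent.M.cg_const (V := (P i).ring) (ζ ^ j)).mul (P i).algebraMap_mem hρ'
    have h3 := hsP j
    rw [← hij] at h3
    have h4 := (hsP i).unique (P i).algebraMap_mem h1
    have h5 := h3.unique (P i).algebraMap_mem h2
    have h6 : ζ ^ i = ζ ^ j := mul_right_cancel₀ hρ'0 (h4.symm.trans h5)
    exact hζ.pow_inj hi hj h6
  -- the degree
  have hsum := FF.sum_ord_le hM htt ((Finset.range ℓ).image P) (fun Q hQ => by
    obtain ⟨i, -, rfl⟩ := Finset.mem_image.1 hQ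
    exact htP i)
  rw [Finset.sum_image hinj] at hsum
  have hdeg := H.finrank_le hℓ α
  rw [← ht] at hdeg
  have hpos : ∀ i : ℕ, 1 ≤ ord (P i).ring t := fun i => (FF.ord_pos_iff hM _ ht0).2 (htP i)
  refine ⟨P 0, by rw [← ht]; exact htP 0, ?_⟩
  rw [← ht]
  have h1 : (∑ i ∈ Finset.range ℓ, ord (P i).ring t) =
      ord (P 0).ring t + ∑ i ∈ (Finset.range ℓ).erase 0, ord (P i).ring t :=
    (Finset.add_sum_erase _ (fun i => ord (P i).ring t) (Finset.mem_range.2 hℓ.pos)).symm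
  have h2 : (((Finset.range ℓ).erase 0).card : ℤ) ≤
      ∑ i ∈ (Finset.range ℓ).erase 0, ord (P i).ring t := by
    have := Finset.card_nsmul_le_sum ((Finset.range ℓ).erase 0) (fun i => ord (P i).ring t) 1
      fun i _ => hpos i
    simpa using this
  have h3 : (((Finset.range ℓ).erase 0).card : ℤ) = ℓ - 1 := by
    rw [Finset.card_erase_of_mem (Finset.mem_range.2 hℓ.pos), Finset.card_range]
    have := hℓ.pos
    omega
  have h4 := hpos 0
  have h5 : (Module.finrank E⟮t⟯ (MM E K0 r) : ℤ) ≤ ℓ := by exact_mod_cast hdeg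
  linarith

end geo

end Pool.Agent.PDL
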