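import Pool.Agent.Helper45.PD.Kum2

/-!
# Project PD: the level `YL`
-/

set_option autoImplicit false
set_option linter.unusedSectionVars false

namespace Pool.Agent.PDL

open VC IntermediateField NumberField IsDedekindDomain Pool.Agent.SC
open Pool.Agent.L (L0 MM)
open Pool.Agent.LN (Geo Act)
open Pool.Agent.M (Moves OverPl inL0 Cg moves_comp moves_unique moves_one moves_congr)
open Pool.Agent.ML (HasMu BPl)
open Pool.Agent.TOW (Au AuE exists_im moves_inv inv_fix FGL ff59)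

section gen

variable {E K0 U : Type} [Field E] [Field K0] [Field U] [Algebra E U] [Algebra K0 U] {ℓ : ℕ}

theorem L0_le_YL : L0 E K0 (U := U) ≤ YL E K0 ℓ := fun _ hx =>
  IntermediateField.subset_adjoin _ _ (Or.inl hx)

theorem mem_YL {w : U} (hw : w ^ ℓ ∈ L0 E K0 (U := U)) : w ∈ YL E K0 ℓ (U := U) :=
  IntermediateField.subset_adjoin _ _ (Or.inr hw)

theorem K_mem_YL (y : K0) : algebraMap K0 U y ∈ YL E K0 ℓ (U := U) := L0_le_YL (K_mem y)

theorem MM_le_YL {r : U} {h : K0} (hr : r ^ ℓ = algebraMap K0 U h) :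
    MM E K0 r ≤ YL E K0 ℓ := by
  refine IntermediateField.adjoin_le_iff.2 ?_
  rintro x (⟨c, rfl⟩ | hx)
  · exact K_mem_YL c
  · rw [Set.mem_singleton_iff.1 hx]
    exact mem_YL (by rw [hr]; exact K_mem h)

/-- automorphisms over `K0` which preserve `E` preserve `L0` -/
theorem au_L0 {T : U ≃+* U} (hT : Au E K0 T) :
    ∀ z ∈ L0 E K0 (U := U), T z ∈ L0 E K0 (U := U) := by
  intro z hz
  refine IntermediateField.adjoin_induction (p := fun z _ => T z ∈ L0 E K0 (U := U)) E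
    ?_ ?_ ?_ ?_ ?_ hz
  · rintro _ ⟨x, rfl⟩
    rw [hT.fixK]
    exact K_mem x
  · intro e
    obtain ⟨e', he'⟩ := hT.presE e
    rw [he']
    exact (L0 E K0 (U := U)).algebraMap_mem e'
  · intro a b _ _ ha hb
    rw [map_add]; exact add_mem ha hb
  · intro a _ ha
    rw [map_inv₀]; exact inv_mem ha
  · intro a b _ _ ha hb
    rw [map_mul]; exact mul_mem ha hb

theorem au_YL {T : U ≃+* U} (hT : Au E K0 T) :
    ∀ z ∈ YL E K0 ℓ (U := U), T z ∈ YL E K0 ℓ (U := U) := by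
  intro z hz
  refine IntermediateField.adjoin_induction (p := fun z _ => T z ∈ YL E K0 ℓ (U := U)) E
    ?_ ?_ ?_ ?_ ?_ hz
  · rintro x (hx | hx)
    · exact L0_le_YL (au_L0 hT x hx)
    · exact mem_YL (by rw [← map_pow]; exact au_L0 hT _ hx)
  · intro e
    obtain ⟨e', he'⟩ := hT.presE e
    rw [he']
    exact (YL E K0 ℓ (U := U)).algebraMap_mem e'
  · intro a b _ _ ha hb
    rw [map_add]; exact add_mem ha hb
  · intro a _ ha
    rw [map_inv₀]; exact inv_mem ha
  · intro a b _ _ ha hb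
    rw [map_mul]; exact mul_mem ha hb

/-- two ring homomorphisms which agree on `L0` and on the roots agree on `YL` -/
theorem eq_on_YL {T T' : U ≃+* U} (hL : ∀ z ∈ L0 E K0 (U := U), T z = T' z)
    (hw : ∀ w : U, w ^ ℓ ∈ L0 E K0 (U := U) → T w = T' w) :
    ∀ z ∈ YL E K0 ℓ (U := U), T z = T' z := by
  intro z hz
  refine IntermediateField.adjoin_induction (p := fun z _ => T z = T' z) E ?_ ?_ ?_ ?_ ?_ hz
  · rintro x (hx | hx)
    · exact hL x hx
    · exact hw x hx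
  · intro e
    exact hL _ ((L0 E K0 (U := U)).algebraMap_mem e)
  · intro a b _ _ ha hb
    rw [map_add, map_add, ha, hb]
  · intro a _ ha
    rw [map_inv₀, map_inv₀, ha]
  · intro a b _ _ ha hb
    rw [map_mul, map_mul, ha, hb]

/-- the root of unity by which an automorphism over `L0` multiplies a root -/
theorem eig_YL [IsAlgClosed E] (hℓ : 0 < ℓ) {T : U ≃+* U} (hT : AuE E K0 T) {w : U}
    (hw : w ^ ℓ ∈ L0 E K0 (U := U)) : ∃ ζ : E, ζ ^ ℓ = 1 ∧ T w = algebraMap E U ζ * w := by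
  by_cases h0 : w = 0
  · exact ⟨1, one_pow _, by rw [h0, map_zero, mul_zero]⟩
  · exact eig_root (E := E) hℓ h0 (hT.onL0 _ hw)

theorem pow_fix_YL [IsAlgClosed E] (hℓ : 0 < ℓ) {T : U ≃+* U} (hT : AuE E K0 T) :
    ∀ z ∈ YL E K0 ℓ (U := U), (T ^ ℓ) z = z := by
  intro z hz
  have h1 : (T ^ ℓ) z = (1 : U ≃+* U) z := by
    refine eq_on_YL (E := E) (K0 := K0) (ℓ := ℓ) ?_ ?_ z hz
    · intro z hz
      exact (auE_pow hT ℓ).onL0 z hz
    · intro w hw
      obtain ⟨ζ, hζ, h1⟩ := eig_YL (E := E) hℓ hT hw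
      have h2 : ∀ i : ℕ, (T ^ i) w = algebraMap E U (ζ ^ i) * w := by
        intro i
        induction i with
        | zero => simp
        | succ i ih =>
          rw [pow_succ']
          show T ((T ^ i) w) = _
          rw [ih, map_mul, hT.fixE, h1, pow_succ, map_mul, mul_assoc]
      rw [h2, hζ, map_one, one_mul]
      rfl
  exact h1

theorem comm_YL [IsAlgClosed E] (hℓ : 0 < ℓ) {T T' : U ≃+* U} (hT : AuE E K0 T)
    (hT' : AuE E K0 T') : ∀ z ∈ YL E K0 ℓ (U := U), T (T' z) = T' (T z) := by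
  intro z hz
  have h1 : (T * T') z = (T' * T) z := by
    refine eq_on_YL (E := E) (K0 := K0) (ℓ := ℓ) ?_ ?_ z hz
    · intro z hz
      rw [(hT.mul hT').onL0 z hz, (hT'.mul hT).onL0 z hz]
    · intro w hw
      obtain ⟨ζ, -, h1⟩ := eig_YL (E := E) hℓ hT hw
      obtain ⟨ζ', -, h2⟩ := eig_YL (E := E) hℓ hT' hw
      show T (T' w) = T' (T w)
      rw [h1, h2, map_mul, map_mul, hT.fixE, hT'.fixE, h1, h2]
      ring
  exact h1

end gen

section geo

variable {k K0 E U : Type} [Field k] [NumberField k] [Field K0] [Field E] [Field U]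
  [Algebra k K0] [Algebra k E] [Algebra E U] [Algebra K0 U] [Algebra k U] [IsScalarTower k E U]
  [IsScalarTower k K0 U] {ℓ : ℕ} {x : K0} {f : Polynomial k} {r : U}

/-- the roots at all branch points -/
theorem HypL.exists_ww (H : HypL E ℓ x f r) (hℓ : ℓ.Prime) (hd : ¬ ℓ ∣ f.natDegree) :
    ∃ ww : E → U, ∀ β ∈ RB k E ℓ f, ww β ^ ℓ = algebraMap K0 U x - algebraMap E U β := by
  classical
  have h1 : ∀ β : E, ∃ w : U, β ∈ RB k E ℓ f → w ^ ℓ = algebraMap K0 U x - algebraMap E U β := by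
    intro β
    by_cases h : β ∈ RB k E ℓ f
    · obtain ⟨w, hw⟩ := H.exists_w hℓ hd (mem_RB.1 h)
      exact ⟨w, fun _ => hw⟩
    · exact ⟨0, fun h' => absurd h' h⟩
  choose ww hww using h1
  exact ⟨ww, fun β hβ => hww β hβ⟩

theorem HypL.ww_mem (_ : HypL E ℓ x f r) {β : E} {w : U}
    (hw : w ^ ℓ = algebraMap K0 U x - algebraMap E U β) : w ∈ YL E K0 ℓ (U := U) := by
  refine mem_YL ?_
  rw [hw]
  exact sub_mem (K_mem x) ((L0 E K0 (U := U)).algebraMap_mem β)

/-- the level is generated over `L0` by the roots at the branch points -/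
theorem HypL.YL_le (H : HypL E ℓ x f r) (hℓ : ℓ.Prime) {ww : E → U}
    (hww : ∀ β ∈ RB k E ℓ f, ww β ^ ℓ = algebraMap K0 U x - algebraMap E U β)
    {N : IntermediateField E U} (hL : L0 E K0 (U := U) ≤ N)
    (hN : ∀ β ∈ RB k E ℓ f, ww β ∈ N) : YL E K0 ℓ (U := U) ≤ N := by
  refine IntermediateField.adjoin_le_iff.2 ?_
  rintro w (hw | hw)
  · exact hL hw
  · by_cases h0 : w = 0
    · rw [h0]
      exact zero_mem N
    · obtain ⟨a, ha⟩ := H.decomp hℓ hww h0 hw
      have h1 : ∏ β ∈ RB k E ℓ f, ww β ^ a β ∈ N :=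
        prod_mem fun β hβ => pow_mem (hN β hβ) _
      have h2 : ∏ β ∈ RB k E ℓ f, ww β ^ a β ≠ 0 :=
        Finset.prod_ne_zero_iff.2 fun β hβ => pow_ne_zero _ (H.ww_ne hℓ (hww β hβ))
      have h3 := div_mem (hL ha) h1
      rwa [mul_div_cancel_right₀ _ h2] at h3

theorem HypL.fgl (H : HypL E ℓ x f r) (hℓ : ℓ.Prime) (hd : ¬ ℓ ∣ f.natDegree) :
    FGL E K0 (YL E K0 ℓ (U := U)) := by
  classical
  obtain ⟨ww, hww⟩ := H.exists_ww hℓ hd
  exact ⟨(RB k E ℓ f).image ww, fun N hL hN =>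
    H.YL_le hℓ hww hL fun β hβ => hN _ (Finset.mem_image_of_mem ww hβ)⟩

theorem HypL.ffY (H : HypL E ℓ x f r) (hℓ : ℓ.Prime) (hd : ¬ ℓ ∣ f.natDegree) :
    IsFunctionField E (YL E K0 ℓ (U := U)) := by
  have := H.chU
  have hgal := gal_L0 (E := E) H.geo.normal
  have : Algebra.IsAlgebraic (L0 E K0 (U := U)) U := inferInstance
  exact ff59 H.geo.ff L0_le_YL (H.fgl hℓ hd)

end geo

end Pool.Agent.PDL
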