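import Pool.Agent.Helper45.PD.Defs
import Pool.Agent.Helper97.PD.Defs

/-!
# Project PD (MP_e66f84_ag): cyclic covers `y ^ ℓ = f(x)` of the line, block statements

The branch points of `y ^ ℓ = f(x)` are the roots of `f` with multiplicity not divisible by `ℓ`, and
infinity if `ℓ` does not divide the degree of `f`.
-/

set_option autoImplicit false

namespace Pool.Agent.PDL

open VC IntermediateField NumberField IsDedekindDomain Pool.Agent.SC Pool.Agent.Helper91.Sect
open Filter Topology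
open Pool.Agent.L (L0 MM)
open Pool.Agent.LN (Geo Act GoodCurve)
open Pool.Agent.M (Moves OverPl inL0)
open Pool.Agent.ML (HasMu BPl)

noncomputable section

/-- `θ` is a branch point of `y ^ ℓ = f(x)` -/
def IsBr {k E : Type} [Field k] [Field E] [Algebra k E] (ℓ : ℕ) (f : Polynomial k) (θ : E) : Prop :=
  ¬ ℓ ∣ (f.map (algebraMap k E)).rootMultiplicity θ

/-- the number of the branch points of `y ^ ℓ = f(x)` -/
def numBr (k E : Type) [Field k] [Field E] [Algebra k E] (ℓ : ℕ) (f : Polynomial k) : ℕ :=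
  Nat.card {θ : E // IsBr ℓ f θ} + if ℓ ∣ f.natDegree then 0 else 1

/-- For two rational branch points there is a third closed branch point of degree prime to `ℓ`. -/
structure Third (k E : Type) [Field k] [Field E] [Algebra k E] (ℓ : ℕ) (f : Polynomial k) :
    Prop where
  fin : ∀ α β : k, α ≠ β → ¬ ℓ ∣ f.rootMultiplicity α → ¬ ℓ ∣ f.rootMultiplicity β →
    ¬ ℓ ∣ f.natDegree ∨
    ∃ θ : E, IsBr ℓ f θ ∧ θ ≠ algebraMap k E α ∧ θ ≠ algebraMap k E β ∧
      ¬ ℓ ∣ (minpoly k θ).natDegree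
  inf : ∀ α : k, ¬ ℓ ∣ f.rootMultiplicity α → ¬ ℓ ∣ f.natDegree →
    ∃ θ : E, IsBr ℓ f θ ∧ θ ≠ algebraMap k E α ∧ ¬ ℓ ∣ (minpoly k θ).natDegree

/-- BLOCK P11 (RatSet for the line), `ℓ` odd. -/
def StmtRS : Prop :=
  ∀ (k K0 E U : Type) [Field k] [NumberField k] [Field K0] [Field E] [Field U] [Algebra k K0]
    [Algebra k E] [Algebra E U] [Algebra K0 U] [Algebra k U] [IsScalarTower k E U]
    [IsScalarTower k K0 U] (ℓ : ℕ) (x : K0) (f : Polynomial k) (r : U), ℓ.Prime → ℓ ≠ 2 →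
    HasMu k ℓ → HypL E ℓ x f r → (∃ u : K0, IsRatBr ℓ x f u) →
    numBr k E ℓ f * ℓ ^ 2 < ℓ ^ numBr k E ℓ f → Third k E ℓ f →
    ∃ R : Finset (Place E (L0 E K0 (U := U))), PD.RatSet (k := k) ℓ (Polynomial.aeval x f) r R ∧
      ∀ b ∈ R, ∃ u : K0, IsRatBr ℓ x f u ∧
        ∀ Q : Place E (YL E K0 ℓ (U := U)), OverPl b Q → PoleAt u Q

/-- THE THEOREM at the level `1 - ζ`. -/
def StmtOneL : Prop :=
  ∀ (k K0 E U : Type) [Field k] [NumberField k] [Field K0] [Field E] [Field U] [Algebra k K0]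
    [Algebra k E] [Algebra E U] [Algebra K0 U] [Algebra k U] [IsScalarTower k E U]
    [IsScalarTower k K0 U] (ℓ : ℕ) (x : K0) (f : Polynomial k) (r : U), ℓ.Prime → ℓ ≠ 2 →
    HasMu k ℓ → HypL E ℓ x f r → (∃ u : K0, IsRatBr ℓ x f u) →
    numBr k E ℓ f * ℓ ^ 2 < ℓ ^ numBr k E ℓ f → Third k E ℓ f →
    PD.Rare ℓ (fun c : k => ∃ Φ : (E ≃ₐ[k] E) →* (U ≃+* U), Act (K0 := K0) ℓ r c Φ ∧
      ¬ ∃ u : K0, IsRatBr ℓ x f u ∧ ∃ Q : Place E (YL E K0 ℓ (U := U)), PoleAt u Q ∧
        ∀ g : E ≃ₐ[k] E, Moves (Φ g) _ Q Q)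

/-! ## The absolute form -/

section abs

variable (k : Type) {K : Type} [Field k] [Field K] [Algebra k K]

/-- The field `kbar(x)`, in the algebraic closure of `K`. -/
def KB1 (x : K) : Subfield (AlgebraicClosure K) :=
  Subfield.closure ({z | IsAlgebraic k z} ∪ {algebraMap K (AlgebraicClosure K) x})

/-- The field `kbar(x, y)`, in the algebraic closure of `K`. -/
def KB2 (x y : K) : Subfield (AlgebraicClosure K) :=
  Subfield.closure ({z | IsAlgebraic k z} ∪
    {algebraMap K (AlgebraicClosure K) x, algebraMap K (AlgebraicClosure K) y})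

/-- `w` is an `ℓ`-th root of an element of `kbar(x)` whose divisor on `kbar(x, y)` is divisible by
`ℓ`. -/
def IsRt1 (x y : K) (ℓ : ℕ) (w : AlgebraicClosure K) : Prop :=
  ∃ u : KB2 k x y, (u : AlgebraicClosure K) = w ^ ℓ ∧ (u : AlgebraicClosure K) ∈ KB1 k x ∧
    ∀ P : ValuationSubring (KB2 k x y),
      (∀ z : KB2 k x y, IsAlgebraic k (z : AlgebraicClosure K) → z ∈ P) →
      ∃ z : KB2 k x y, P.valuation u = P.valuation z ^ ℓ

/-- The maximal abelian extension of exponent `ℓ` of `kbar(x)` which is unramified over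
`kbar(x, y)`. -/
def Lev1 (x y : K) (ℓ : ℕ) : Subfield (AlgebraicClosure K) :=
  Subfield.closure ({z | IsAlgebraic k z} ∪
    {algebraMap K (AlgebraicClosure K) x, algebraMap K (AlgebraicClosure K) y} ∪
    {w | IsRt1 k x y ℓ w})

end abs

/-- The section `s` of `K ∋ x, y` fixes a place of `Lev1` at which `u` has a pole. -/
def AgrAt {k K : Type} [Field k] [Field K] [Algebra k K] (s : GaloisSection k K) (x y : K) (ℓ : ℕ)
    (u : K) : Prop :=
  ∃ Q : ValuationSubring (AlgebraicClosure K), (∀ z, IsAlgebraic k z → z ∈ Q) ∧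
    algebraMap K (AlgebraicClosure K) u ∉ Q ∧
    ∀ w ∈ Lev1 k x y ℓ, ∃ hw : w ∈ Kur k K, ∀ g : Gk k K,
      (w ∈ Q ↔ (s.toHom g ⟨w, hw⟩ : AlgebraicClosure K) ∈ Q)

/-- BLOCK GCL: `y ^ ℓ = f(x)` with at least three branch points is geometrically irreducible and not
rational. -/
def StmtGCL : Prop :=
  ∀ (k : Type) [Field k] [NumberField k] (ℓ : ℕ) (f : Polynomial k), ℓ.Prime →
    3 ≤ numBr k (AlgebraicClosure k) ℓ f →
    GoodCurve k ℓ (algebraMap (Polynomial k) (FractionRing (Polynomial k)) f)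

/-- BLOCK TRL: the transfer for `y ^ ℓ = c f(x)` (as `TOWS.trS`). -/
def StmtTRL : Prop :=
  ∀ (k : Type) [Field k] [NumberField k] (ℓ : ℕ) (f : Polynomial k), ℓ.Prime →
    GoodCurve k ℓ (algebraMap (Polynomial k) (FractionRing (Polynomial k)) f) →
    ∃ (E U : Type) (_ : Field E) (_ : Field U) (_ : Algebra k E) (_ : Algebra E U)
      (_ : Algebra (FractionRing (Polynomial k)) U) (_ : Algebra k U) (_ : IsScalarTower k E U)
      (_ : IsScalarTower k (FractionRing (Polynomial k)) U) (r : U),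
      HypL E ℓ (algebraMap (Polynomial k) (FractionRing (Polynomial k)) Polynomial.X) f r ∧
      ∀ c : k, c ≠ 0 → ∀ (K : Type) [Field K] [Algebra k K] (x y : K), Transcendental k x →
        y ^ ℓ = algebraMap k K c * Polynomial.aeval x f → ∀ s : GaloisSection k K,
        ∃ Φ : (E ≃ₐ[k] E) →* (U ≃+* U), Act (K0 := FractionRing (Polynomial k)) ℓ r c Φ ∧
          (∀ w ∈ Lev1 k x y ℓ, w ∈ Kur k K) ∧
          ∀ Q : Place E (YL E (FractionRing (Polynomial k)) ℓ (U := U)),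
            (∀ g : E ≃ₐ[k] E, Moves (Φ g) _ Q Q) →
            (PoleAt (algebraMap (Polynomial k) (FractionRing (Polynomial k)) Polynomial.X) Q →
              AgrAt s x y ℓ x) ∧
            ∀ α : k, PoleAt (algebraMap (Polynomial k) (FractionRing (Polynomial k)) Polynomial.X -
              algebraMap k (FractionRing (Polynomial k)) α)⁻¹ Q →
              AgrAt s x y ℓ (x - algebraMap k K α)⁻¹

/-- Some curve over `k` which maps onto `y ^ ℓ = c f(x)` has a section which agrees modulo `1 - ζ`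
with no rational branch point. -/
def OthL {k : Type} [Field k] (f : Polynomial k) (ℓ : ℕ) (c : k) : Prop :=
  ∃ (K : Type) (_ : Field K) (_ : Algebra k K) (x y : K), Transcendental k x ∧
    y ^ ℓ = algebraMap k K c * Polynomial.aeval x f ∧ ∃ s : GaloisSection k K,
      (¬ ℓ ∣ f.natDegree → ¬ AgrAt s x y ℓ x) ∧
      ∀ α : k, ¬ ℓ ∣ f.rootMultiplicity α → ¬ AgrAt s x y ℓ (x - algebraMap k K α)⁻¹

/-- THE FINAL THEOREM (0% of the classes, ordered by `LN.cond`). -/
def StmtFinL : Prop :=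
  ∀ (k : Type) [Field k] [NumberField k] (ℓ : ℕ) (f : Polynomial k), ℓ.Prime → ℓ ≠ 2 →
    HasMu k ℓ → 3 ≤ numBr k (AlgebraicClosure k) ℓ f →
    (ℓ = 3 → 4 ≤ numBr k (AlgebraicClosure k) ℓ f) → Third k (AlgebraicClosure k) ℓ f →
    Tendsto (fun X : ℕ => (Nat.card (LN.clsP (k := k) ℓ (OthL f ℓ) X) : ℝ) /
      Nat.card (LN.clsP (k := k) ℓ (fun _ => True) X)) atTop (𝓝 0)

end

end Pool.Agent.PDL
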