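import Pool.Agent.Helper45.PD.Coord

/-!
# Project PD: the branch points in the new coordinate
-/

set_option autoImplicit false
set_option linter.unusedSectionVars false

namespace Pool.Agent.PDL

open VC IntermediateField NumberField IsDedekindDomain Pool.Agent.SC
open Pool.Agent.L (L0 MM)
open Pool.Agent.LN (Geo Act)

section poly

open Polynomial

variable {E : Type} [Field E]

theorem reverse_sub (a : E) : (X - C a : E[X]).reverse = 1 - C a * X := by
  have h1 : (X - C a : E[X]) = X + C (-a) := by rw [C_neg, sub_eq_add_neg]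
  have h2 : (X : E[X]).reverse = 1 := by
    have h3 := reverse_mul_X (1 : E[X])
    rw [one_mul] at h3
    rw [h3]
    have h4 := reverse_C (1 : E)
    rwa [C_1] at h4
  rw [h1, reverse_add_C, h2, natDegree_X, pow_one, C_neg, neg_mul, ← sub_eq_add_neg]

theorem reverse_pow' (p : E[X]) (m : ℕ) : (p ^ m).reverse = p.reverse ^ m := by
  induction m with
  | zero =>
    rw [pow_zero, pow_zero]
    have h4 := reverse_C (1 : E)
    rwa [C_1] at h4
  | succ m ih => rw [pow_succ, pow_succ, reverse_mul_of_domain, ih]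

theorem rootMult_reverse {g : E[X]} (hg : g ≠ 0) {γ : E} (hγ : γ ≠ 0) :
    g.reverse.rootMultiplicity γ = g.rootMultiplicity γ⁻¹ := by
  obtain ⟨q, hq, hq0⟩ := exists_eq_pow_rootMultiplicity_mul_and_not_dvd g hg γ⁻¹
  obtain ⟨m, hm⟩ : ∃ m, m = g.rootMultiplicity γ⁻¹ := ⟨_, rfl⟩
  rw [← hm] at hq ⊢
  have h1 : (1 - C γ⁻¹ * X : E[X]) = C (-γ⁻¹) * (X - C γ) := by
    rw [mul_sub, ← C_mul, neg_mul, inv_mul_cancel₀ hγ, C_neg, C_neg, C_1]
    ring
  have h2 : g.reverse = q.reverse * C ((-γ⁻¹) ^ m) * (X - C γ) ^ m := by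
    rw [hq, reverse_mul_of_domain, reverse_pow', reverse_sub, h1, mul_pow, ← C_pow]
    ring
  have hqne : q ≠ 0 := by
    rintro rfl
    exact hq0 (dvd_zero _)
  have hc : (-γ⁻¹) ^ m ≠ 0 := pow_ne_zero _ (neg_ne_zero.2 (inv_ne_zero hγ))
  have h3 : q.reverse * C ((-γ⁻¹) ^ m) ≠ 0 :=
    mul_ne_zero (by rw [Ne, reverse_eq_zero]; exact hqne) (by rw [Ne, C_eq_zero]; exact hc)
  rw [h2, rootMultiplicity_mul_X_sub_C_pow h3]
  have h4 : (q.reverse * C ((-γ⁻¹) ^ m)).rootMultiplicity γ = 0 := by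
    rw [rootMultiplicity_eq_zero_iff]
    intro h5
    exfalso
    rw [IsRoot.def, eval_mul, eval_C] at h5
    rcases mul_eq_zero.1 h5 with h6 | h6
    · let _ : Invertible γ⁻¹ := invertibleOfNonzero (inv_ne_zero hγ)
      have h7 : ⅟(γ⁻¹) = γ := by rw [invOf_eq_inv, inv_inv]
      have h8 := (eval₂_reverse_eq_zero_iff (RingHom.id E) γ⁻¹ q).1 (by rw [h7]; exact h6)
      exact hq0 (dvd_iff_isRoot.2 h8)
    · exact hc h6
  rw [h4, zero_add]

theorem map_reverse' {k : Type} [Field k] (i : k →+* E) (g : k[X]) :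
    g.reverse.map i = (g.map i).reverse := by
  ext n
  rw [coeff_map, coeff_reverse, coeff_reverse, coeff_map, natDegree_map]

end poly

section geo

variable {k K0 E U : Type} [Field k] [NumberField k] [Field K0] [Field E] [Field U]
  [Algebra k K0] [Algebra k E] [Algebra E U] [Algebra K0 U] [Algebra k U] [IsScalarTower k E U]
  [IsScalarTower k K0 U] {ℓ : ℕ} {x : K0} {f : Polynomial k} {r : U}

open Polynomial in
/-- the coordinate `(x - α)⁻¹` -/
theorem HypL.coord' (H : HypL E ℓ x f r) (hℓ : ℓ.Prime) {α : k}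
    (hα : ¬ ℓ ∣ f.rootMultiplicity α) :
    ∃ (F : Polynomial k) (s : K0), s ≠ 0 ∧ ¬ ℓ ∣ F.natDegree ∧
      HypL E ℓ (x - algebraMap k K0 α)⁻¹ F (r * algebraMap K0 U s) ∧
      aeval (x - algebraMap k K0 α)⁻¹ F = aeval x f * s ^ ℓ ∧
      ∀ γ : E, γ ≠ 0 → (F.map (algebraMap k E)).rootMultiplicity γ =
        (f.map (algebraMap k E)).rootMultiplicity (algebraMap k E α + γ⁻¹) := by
  obtain ⟨v, hv⟩ : ∃ v : K0, v = (x - algebraMap k K0 α)⁻¹ := ⟨_, rfl⟩
  have hxα : x - algebraMap k K0 α ≠ 0 := by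
    intro h
    apply H.tr
    rw [sub_eq_zero.1 h]
    exact isAlgebraic_algebraMap α
  have hv0 : v ≠ 0 := by rw [hv]; exact inv_ne_zero hxα
  have hxv : x - algebraMap k K0 α = v⁻¹ := by rw [hv, inv_inv]
  obtain ⟨g, hg⟩ : ∃ g : Polynomial k, g = f.comp (X + C α) := ⟨_, rfl⟩
  have hgd : g.natDegree = f.natDegree := by
    rw [hg, natDegree_comp, natDegree_X_add_C, mul_one]
  have hgt : g.natTrailingDegree = f.rootMultiplicity α := by
    rw [hg, rootMultiplicity_eq_natTrailingDegree]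
  have hf0 : f ≠ 0 := by
    rintro rfl
    exact H.f_ne hℓ (Polynomial.map_zero _)
  have hg0 : g ≠ 0 := by
    intro h
    rw [h, natTrailingDegree_zero] at hgt
    rw [← hgt] at hα
    exact hα (dvd_zero _)
  have hgv : aeval v⁻¹ g = aeval x f := by
    rw [hg, aeval_comp, map_add, aeval_X, aeval_C, ← hxv, sub_add_cancel]
  have hrev : aeval v g.reverse = aeval x f * v ^ f.natDegree := by
    let _ : Invertible v⁻¹ := invertibleOfNonzero (inv_ne_zero hv0)
    have h2 := eval₂_reverse_mul_pow (algebraMap k K0) v⁻¹ g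
    have h3 : ⅟(v⁻¹) = v := by rw [invOf_eq_inv, inv_inv]
    rw [h3, hgd] at h2
    have h4 : aeval v g.reverse * v⁻¹ ^ f.natDegree = aeval x f := by
      rw [← hgv]
      exact h2
    rw [← h4, mul_assoc, ← mul_pow, inv_mul_cancel₀ hv0, one_pow, mul_one]
  have hF : aeval v (X ^ (ℓ * f.natDegree - f.natDegree) * g.reverse) =
      aeval x f * (v ^ f.natDegree) ^ ℓ := by
    rw [map_mul, map_pow, aeval_X, hrev]
    have h2 : f.natDegree ≤ ℓ * f.natDegree := Nat.le_mul_of_pos_left _ hℓ.pos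
    calc v ^ (ℓ * f.natDegree - f.natDegree) * (aeval x f * v ^ f.natDegree)
        = aeval x f * v ^ (ℓ * f.natDegree - f.natDegree + f.natDegree) := by
          rw [pow_add]; ring
      _ = _ := by rw [Nat.sub_add_cancel h2, ← pow_mul, mul_comm ℓ]
  refine ⟨X ^ (ℓ * f.natDegree - f.natDegree) * g.reverse, v ^ f.natDegree,
    pow_ne_zero _ hv0, ?_, ?_, ?_, ?_⟩
  · rw [natDegree_mul (pow_ne_zero _ X_ne_zero) (by rw [Ne, reverse_eq_zero]; exact hg0),
      natDegree_X_pow, reverse_natDegree, hgd, hgt]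
    have h1 : f.rootMultiplicity α ≤ f.natDegree := by
      rw [← hgt, ← hgd]
      exact natTrailingDegree_le_natDegree g
    have h2 : f.natDegree ≤ ℓ * f.natDegree := Nat.le_mul_of_pos_left _ hℓ.pos
    intro h3
    apply hα
    have h4 : ℓ * f.natDegree - f.natDegree + (f.natDegree - f.rootMultiplicity α) +
      f.rootMultiplicity α = ℓ * f.natDegree := by omega
    exact (Nat.dvd_add_right h3).1 (by rw [h4]; exact dvd_mul_right _ _)
  · rw [← hv]
    refine ⟨geo_mul H.geo (pow_ne_zero _ hv0) hF, ?_, ?_⟩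
    · rw [eq_top_iff, ← H.gen, IntermediateField.adjoin_simple_le_iff]
      have h1 : x = v⁻¹ + algebraMap k K0 α := by rw [← hxv, sub_add_cancel]
      rw [h1]
      exact add_mem (inv_mem (mem_adjoin_simple_self k v)) ((k⟮v⟯).algebraMap_mem α)
    · intro h
      apply H.tr
      have h1 : x = v⁻¹ + algebraMap k K0 α := by rw [← hxv, sub_add_cancel]
      rw [h1]
      exact h.inv.add (isAlgebraic_algebraMap α)
  · rw [← hv]
    exact hF
  · intro γ hγ
    have hgE : g.map (algebraMap k E) ≠ 0 := by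
      rw [Ne, Polynomial.map_eq_zero]
      exact hg0
    rw [Polynomial.map_mul, Polynomial.map_pow, map_X, map_reverse']
    rw [rootMultiplicity_mul (mul_ne_zero (pow_ne_zero _ X_ne_zero)
      (by rw [Ne, reverse_eq_zero]; exact hgE)), rootMult_reverse hgE hγ]
    have h1 : (X ^ (ℓ * f.natDegree - f.natDegree) : E[X]).rootMultiplicity γ = 0 := by
      rw [rootMultiplicity_eq_zero_iff]
      intro h2
      exfalso
      rw [IsRoot.def, eval_pow, eval_X] at h2
      exact pow_ne_zero _ hγ h2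
    rw [h1, zero_add, hg, Polynomial.map_comp, Polynomial.map_add, map_X, map_C,
      rootMultiplicity_eq_rootMultiplicity, comp_assoc, add_comp, X_comp, C_comp,
      rootMultiplicity_eq_rootMultiplicity (p := f.map (algebraMap k E))]
    congr 2
    rw [map_add]
    ring

end geo

end Pool.Agent.PDL
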