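import Pool.Agent.Helper45.PD.Kum

/-!
# Project PD: Kummer duality for the roots of `x - β`
-/

set_option autoImplicit false
set_option linter.unusedSectionVars false

namespace Pool.Agent.PDL

open VC IntermediateField NumberField IsDedekindDomain Pool.Agent.SC
open Pool.Agent.L (L0 MM)
open Pool.Agent.LN (Geo Act)
open Pool.Agent.M (Moves OverPl inL0 Cg moves_comp moves_unique moves_one moves_congr)
open Pool.Agent.ML (HasMu BPl)
open Pool.Agent.TOW (Au AuE exists_im moves_inv inv_fix)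

section geo

variable {k K0 E U : Type} [Field k] [NumberField k] [Field K0] [Field E] [Field U]
  [Algebra k K0] [Algebra k E] [Algebra E U] [Algebra K0 U] [Algebra k U] [IsScalarTower k E U]
  [IsScalarTower k K0 U] {ℓ : ℕ} {x : K0} {f : Polynomial k} {r : U}

theorem HypL.sub_ne (H : HypL E ℓ x f r) (β : E) : algebraMap K0 U x - algebraMap E U β ≠ 0 := by
  intro h
  apply H.trU
  rw [sub_eq_zero.1 h]
  exact isAlgebraic_algebraMap β

theorem HypL.ww_ne (H : HypL E ℓ x f r) (hℓ : ℓ.Prime) {w : U} {β : E}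
    (hw : w ^ ℓ = algebraMap K0 U x - algebraMap E U β) : w ≠ 0 := by
  rintro rfl
  rw [zero_pow hℓ.ne_zero] at hw
  exact H.sub_ne β hw.symm

/-- **Kummer duality.** -/
theorem HypL.exists_chi (H : HypL E ℓ x f r) (hℓ : ℓ.Prime) {ww : E → U}
    (hww : ∀ β ∈ RB k E ℓ f, ww β ^ ℓ = algebraMap K0 U x - algebraMap E U β) (χ : E → E)
    (hχ : ∀ β ∈ RB k E ℓ f, χ β ^ ℓ = 1) :
    ∃ T : U ≃+* U, AuE E K0 T ∧ ∀ β ∈ RB k E ℓ f, T (ww β) = algebraMap E U (χ β) * ww β := by
  classical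
  have hcl : IsAlgClosed E := H.geo.clE
  obtain ⟨-, ζ, -, hζ, -⟩ := H.exists_T hℓ
  have : Fact ℓ.Prime := ⟨hℓ⟩
  have : NeZero ℓ := ⟨hℓ.ne_zero⟩
  obtain ⟨e, he⟩ : ∃ e : ZMod ℓ → E, e = fun a => ζ ^ a.val := ⟨_, rfl⟩
  have he0 : e 0 = 1 := by rw [he]; simp
  have hadd : ∀ a b, e (a + b) = e a * e b := by
    intro a b
    rw [he]
    show ζ ^ (a + b).val = ζ ^ a.val * ζ ^ b.val
    rw [ZMod.val_add, ← pow_add]
    exact (pow_eq_pow_mod _ hζ.pow_eq_one).symm
  have hene : ∀ a, e a ≠ 0 := fun a => by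
    rw [he]
    exact pow_ne_zero _ (hζ.ne_zero hℓ.ne_zero)
  have hsum : ∀ (S : Finset {β // β ∈ RB k E ℓ f}) (g : {β // β ∈ RB k E ℓ f} → ZMod ℓ),
      e (∑ β ∈ S, g β) = ∏ β ∈ S, e (g β) := by
    intro S g
    induction S using Finset.induction_on with
    | empty => rw [Finset.sum_empty, Finset.prod_empty, he0]
    | insert b S hb ih => rw [Finset.sum_insert hb, Finset.prod_insert hb, hadd, ih]
  have hmul : ∀ (n : ℕ) (a : ZMod ℓ), e (n * a) = e a ^ n := by
    intro n a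
    induction n with
    | zero => rw [Nat.cast_zero, zero_mul, he0, pow_zero]
    | succ n ih => rw [Nat.cast_succ, add_mul, one_mul, hadd, ih, pow_succ]
  have hroot : ∀ z : E, z ^ ℓ = 1 → ∃ a : ZMod ℓ, e a = z := by
    intro z hz
    obtain ⟨i, hi, rfl⟩ := hζ.eq_pow_of_pow_eq_one hz
    refine ⟨(i : ZMod ℓ), ?_⟩
    rw [he]
    show ζ ^ (i : ZMod ℓ).val = ζ ^ i
    rw [ZMod.val_natCast, Nat.mod_eq_of_lt hi]
  -- the subgroup
  let V : AddSubgroup ({β // β ∈ RB k E ℓ f} → ZMod ℓ) :=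
    { carrier := {v | ∃ T : U ≃+* U, AuE E K0 T ∧
        ∀ β : {β // β ∈ RB k E ℓ f}, T (ww β) = algebraMap E U (e (v β)) * ww β}
      zero_mem' := ⟨1, AuE.one, fun β => by
        rw [Pi.zero_apply, he0, map_one, one_mul]
        rfl⟩
      add_mem' := by
        rintro v v' ⟨T, hT, h1⟩ ⟨T', hT', h2⟩
        refine ⟨T * T', hT.mul hT', fun β => ?_⟩
        show T (T' (ww β)) = _
        rw [h2, map_mul, hT.fixE, h1, Pi.add_apply, hadd, map_mul]
        ring
      neg_mem' := by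
        rintro v ⟨T, hT, h1⟩
        refine ⟨T⁻¹, hT.inv, fun β => ?_⟩
        have h3 : T⁻¹ (T (ww β)) = ww β := T.symm_apply_apply (ww β)
        rw [h1, map_mul, hT.inv.fixE] at h3
        have h4 : e ((-v) β) * e (v β) = 1 := by
          rw [← hadd, Pi.neg_apply, neg_add_cancel, he0]
        calc T⁻¹ (ww β) = algebraMap E U (e ((-v) β) * e (v β)) * T⁻¹ (ww β) := by
              rw [h4, map_one, one_mul]
          _ = algebraMap E U (e ((-v) β)) * (algebraMap E U (e (v β)) * T⁻¹ (ww β)) := by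
              rw [map_mul, mul_assoc]
          _ = _ := by rw [h3] }
  have hV : V = ⊤ := by
    by_contra hne
    obtain ⟨W, hW⟩ : ∃ W : Submodule (ZMod ℓ) ({β // β ∈ RB k E ℓ f} → ZMod ℓ),
      W = AddSubgroup.toZModSubmodule ℓ V := ⟨_, rfl⟩
    have hWV : ∀ v, v ∈ W ↔ v ∈ V := by
      intro v
      rw [hW]
      exact AddSubgroup.mem_toZModSubmodule ℓ
    have hWt : W < ⊤ := by
      rw [lt_top_iff_ne_top]
      intro h
      apply hne
      rw [eq_top_iff]
      intro v _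
      rw [← hWV, h]
      trivial
    obtain ⟨φ, hφ0, hφ⟩ := Submodule.exists_le_ker_of_lt_top W hWt
    obtain ⟨a, ha⟩ : ∃ a : {β // β ∈ RB k E ℓ f} → ZMod ℓ, a = fun β => φ (Pi.single β 1) :=
      ⟨_, rfl⟩
    have hφa : ∀ v, φ v = ∑ β, v β * a β := by
      intro v
      conv_lhs => rw [← Finset.univ_sum_single v, map_sum]
      refine Finset.sum_congr rfl fun β _ => ?_
      have h1 : Pi.single β (v β) = v β • (Pi.single β 1 : {β // β ∈ RB k E ℓ f} → ZMod ℓ) := by
        rw [← Pi.single_smul, smul_eq_mul, mul_one]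
      rw [h1, map_smul, smul_eq_mul, ha]
    obtain ⟨A, hA⟩ : ∃ A : E → ℕ, A = fun β =>
      if h : β ∈ RB k E ℓ f then (a ⟨β, h⟩).val else 0 := ⟨_, rfl⟩
    have hAβ : ∀ β : {β // β ∈ RB k E ℓ f}, A β = (a β).val := by
      intro β
      rw [hA]
      exact dif_pos β.2
    have hfix : ∀ T : U ≃+* U, AuE E K0 T →
        T (∏ β ∈ RB k E ℓ f, ww β ^ A β) = ∏ β ∈ RB k E ℓ f, ww β ^ A β := by
      intro T hT
      have hv : ∀ β : {β // β ∈ RB k E ℓ f}, ∃ b : ZMod ℓ,
          T (ww β) = algebraMap E U (e b) * ww β := by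
        intro β
        obtain ⟨z, hz, h1⟩ := eig_root (E := E) hℓ.pos (H.ww_ne hℓ (hww β β.2)) (T := T) (by
          rw [hww β β.2, map_sub, hT.fixK, hT.fixE])
        obtain ⟨b, rfl⟩ := hroot z hz
        exact ⟨b, h1⟩
      choose v hv using hv
      have hvW : v ∈ W := (hWV v).2 ⟨T, hT, hv⟩
      have h1 : φ v = 0 := hφ hvW
      rw [hφa] at h1
      rw [← Finset.prod_attach, map_prod]
      have h2 : ∏ β ∈ (RB k E ℓ f).attach, T (ww β ^ A β) =
          algebraMap E U (∏ β ∈ (RB k E ℓ f).attach, e (v β * a β)) *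
            ∏ β ∈ (RB k E ℓ f).attach, ww β ^ A β := by
        rw [map_prod, ← Finset.prod_mul_distrib]
        refine Finset.prod_congr rfl fun β _ => ?_
        rw [map_pow, hv, mul_pow, ← map_pow]
        congr 2
        rw [hAβ, mul_comm (v β), ← hmul, ZMod.natCast_val, ZMod.cast_id]
      rw [h2, ← hsum]
      have h3 : ∑ β ∈ (RB k E ℓ f).attach, v β * a β = 0 := by
        rw [← h1]
        rfl
      rw [h3, he0, map_one, one_mul]
    have hind := H.indep hℓ hww A (H.mem_L0 hfix)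
    apply hφ0
    have ha0 : ∀ β, a β = 0 := by
      intro β
      have h1 := hind β β.2
      rw [hAβ] at h1
      have h2 := Nat.eq_zero_of_dvd_of_lt h1 (ZMod.val_lt (a β))
      exact (ZMod.val_eq_zero _).1 h2
    ext1 β
    ext
    have := ha0 β
    rw [ha] at this
    simpa using this
  -- the given values
  have hv : ∀ β : {β // β ∈ RB k E ℓ f}, ∃ b : ZMod ℓ, e b = χ β := fun β => hroot _ (hχ β β.2)
  choose v hv using hv
  have h1 : v ∈ V := by rw [hV]; trivial
  obtain ⟨T, hT, h2⟩ := h1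
  refine ⟨T, hT, fun β hβ => ?_⟩
  have h3 := h2 ⟨β, hβ⟩
  rw [hv] at h3
  exact h3

end geo

end Pool.Agent.PDL
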