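import Pool.Agent.Helper45.PD.COML
import Pool.Agent.Helper97.PD.Defs2

/-!
# Project PD, block E3: the theorem at the level `1 - ζ`
-/

set_option autoImplicit false
set_option linter.unusedSectionVars false

namespace Pool.Agent.PDL

open VC IntermediateField NumberField IsDedekindDomain Pool.Agent.SC
open Filter Topology
open Pool.Agent.L (L0 MM)
open Pool.Agent.LN (Geo Act)
open Pool.Agent.M (Moves OverPl inL0)
open Pool.Agent.ML (HasMu BPl)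

theorem rare_mono45 {k : Type} [Field k] [NumberField k] {ℓ : ℕ} {P P' : k → Prop}
    (h : PD.Rare ℓ P') (hP : ∀ c : k, c ≠ 0 → P c → P' c) : PD.Rare ℓ P := by
  intro ε hε
  filter_upwards [h ε hε] with X hX T h1 h2
  exact hX T h1 fun c hc => ⟨(h2 c hc).1, (h2 c hc).2.1, hP c (h2 c hc).1 (h2 c hc).2.2⟩

section geo

variable {k K0 E U : Type} [Field k] [NumberField k] [Field K0] [Field E] [Field U]
  [Algebra k K0] [Algebra k E] [Algebra E U] [Algebra K0 U] [Algebra k U] [IsScalarTower k E U]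
  [IsScalarTower k K0 U] {ℓ : ℕ} {x : K0} {f : Polynomial k} {r : U}

theorem numBr_eq : numBr k E ℓ f = (RB k E ℓ f).card + if ℓ ∣ f.natDegree then 0 else 1 := by
  unfold numBr
  congr 1
  have e : {θ : E // IsBr ℓ f θ} ≃ {θ // θ ∈ RB k E ℓ f} :=
    Equiv.subtypeEquivRight fun θ => mem_RB.symm
  rw [Nat.card_congr e, Nat.card_eq_fintype_card, Fintype.card_coe]

theorem numBr_pos (h : ∃ u : K0, IsRatBr ℓ x f u) : 0 < numBr k E ℓ f := by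
  rw [numBr_eq]
  obtain ⟨u, ⟨-, hd⟩ | ⟨α, hα, -⟩⟩ := h
  · rw [if_neg hd]
    exact Nat.succ_pos _
  · have h1 : algebraMap k E α ∈ RB k E ℓ f := by
      rw [mem_RB, ← Polynomial.eq_rootMultiplicity_map (algebraMap k E).injective]
      exact hα
    have h2 := Finset.card_pos.2 ⟨_, h1⟩
    omega

theorem lvl_YL (H : HypL E ℓ x f r) (hℓ : ℓ.Prime) (hbr : ∃ u : K0, IsRatBr ℓ x f u) :
    TW.Lvl E K0 (YL E K0 ℓ (U := U)) where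
  ff := H.ffY' hℓ hbr
  le := K_mem_YL
  stab := fun _ hT hE z hz => au_YL ⟨hT, hE⟩ z hz

theorem rare_of (H : HypL E ℓ x f r) (hℓ : ℓ.Prime) (hμ : HasMu k ℓ)
    {R : Finset (Place E (L0 E K0 (U := U)))}
    (hR : ∀ b ∈ R, ∃ u : K0, IsRatBr ℓ x f u ∧
        ∀ Q : Place E (YL E K0 ℓ (U := U)), OverPl b Q → PoleAt u Q)
    (h : PD.Rare ℓ (fun c : k => ∃ Φ : (E ≃ₐ[k] E) →* (U ≃+* U), Act (K0 := K0) ℓ r c Φ ∧
      ∀ b₀ ∈ R, ∃ σ : E ≃ₐ[k] E, ¬ ∃ Q : Place E (YL E K0 ℓ (U := U)),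
        OverPl b₀ Q ∧ Moves (Φ σ) (YL E K0 ℓ (U := U)) Q Q)) :
    PD.Rare ℓ (fun c : k => ∃ Φ : (E ≃ₐ[k] E) →* (U ≃+* U), Act (K0 := K0) ℓ r c Φ ∧
      ¬ ∃ u : K0, IsRatBr ℓ x f u ∧ ∃ Q : Place E (YL E K0 ℓ (U := U)), PoleAt u Q ∧
        ∀ g : E ≃ₐ[k] E, Moves (Φ g) _ Q Q) := by
  refine rare_mono45 h ?_
  rintro c hc ⟨Φ, A, hno⟩
  refine ⟨Φ, A, fun b hb => ?_⟩
  by_contra hcon
  push Not at hcon
  obtain ⟨u, hu, hQu⟩ := hR b hb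
  apply hno
  obtain ⟨Q, hQ1, hQ2⟩ := cOML k K0 E U ℓ x f r hℓ hμ H u hu c Φ hc A (fun σ => by
    obtain ⟨Q, hQ, hm⟩ := hcon σ
    exact ⟨Q, hQu Q hQ, hm⟩)
  exact ⟨u, hu, Q, hQ1, hQ2⟩

end geo

/-- **BLOCK E3.** -/
theorem oneA_of (hLVL : PD.StmtLVL) (hLVL2 : StmtLVL2) (hLVLR : TW3.StmtLVLR) (hRS : StmtRS)
    (hRS2 : StmtRS2) : StmtOneA := by
  intro k K0 E U _ _ _ _ _ _ _ _ _ _ _ _ ℓ x f r hℓ hμ H hbr hnum hT hCr
  have hY := yL1 k K0 E U ℓ x f r hℓ H hbr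
  by_cases hℓ2 : ℓ = 2
  · subst hℓ2
    have h5 : 5 ≤ numBr k E 2 f := by
      have h0 := numBr_pos (E := E) hbr
      by_contra hcon
      push Not at hcon
      interval_cases hn : numBr k E 2 f <;> omega
    obtain ⟨R, hR, hR'⟩ := hRS2 k K0 E U x f r H hbr h5 hT (hCr rfl)
    exact rare_of H hℓ hμ hR' (hLVL2 hLVLR k K0 E U _ r H.geo R hR _ (lvl_YL H hℓ hbr)
      hY.2.2.1 hY.2.2.2.2.1)
  · obtain ⟨R, hR, hR'⟩ := hRS k K0 E U ℓ x f r hℓ hℓ2 hμ H hbr hnum hT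
    exact rare_of H hℓ hμ hR' (hLVL k K0 E U ℓ _ r hℓ hμ H.geo R hR _ (lvl_YL H hℓ hbr)
      hY.2.2.1 hY.2.2.2.2.2 hY.2.2.2.2.1)

/-- `StmtOneL`, for odd `ℓ` -/
theorem oneL_of (hLVL : PD.StmtLVL) (hRS : StmtRS) : StmtOneL := by
  intro k K0 E U _ _ _ _ _ _ _ _ _ _ _ _ ℓ x f r hℓ hℓ2 hμ H hbr hnum hT
  have hY := yL1 k K0 E U ℓ x f r hℓ H hbr
  obtain ⟨R, hR, hR'⟩ := hRS k K0 E U ℓ x f r hℓ hℓ2 hμ H hbr hnum hT
  exact rare_of H hℓ hμ hR' (hLVL k K0 E U ℓ _ r hℓ hμ H.geo R hR _ (lvl_YL H hℓ hbr)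
    hY.2.2.1 hY.2.2.2.2.2 hY.2.2.2.2.1)

end Pool.Agent.PDL
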