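import Pool.Agent.Helper45.PD.Uniq

/-!
# Project PD, block COML: a common fixed place
-/

set_option autoImplicit false
set_option linter.unusedSectionVars false

namespace Pool.Agent.PDL

open VC IntermediateField NumberField IsDedekindDomain Pool.Agent.SC
open Pool.Agent.L (L0 MM)
open Pool.Agent.LN (Geo Act)
open Pool.Agent.M (Moves OverPl inL0 Cg moves_comp moves_unique moves_one moves_congr moves_pow
  cg_const)
open Pool.Agent.ML (HasMu BPl)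
open Pool.Agent.TOW (Au AuE exists_im moves_inv inv_fix conj59 above59 below59 auE59)

/-- representatives of the orbits -/
theorem exists_rep (G X : Type) [Group G] [MulAction G X] :
    ∃ (rep : X → X) (γ : X → G), (∀ β, γ β • rep β = β) ∧ ∀ (g : G) (β : X),
      rep (g • β) = rep β := by
  obtain ⟨rep, hrep⟩ : ∃ rep : X → X, rep = fun β =>
    (Quotient.mk (MulAction.orbitRel G X) β).out := ⟨_, rfl⟩
  have h1 : ∀ β : X, ∃ g : G, g • rep β = β := by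
    intro β
    have h2 : (MulAction.orbitRel G X) (rep β) β := by
      rw [hrep]
      exact Quotient.mk_out (s := MulAction.orbitRel G X) β
    rw [MulAction.orbitRel_apply] at h2
    obtain ⟨g, hg⟩ := h2
    refine ⟨g⁻¹, ?_⟩
    rw [← hg]
    exact inv_smul_smul g β
  choose γ hγ using h1
  refine ⟨rep, γ, hγ, fun g β => ?_⟩
  rw [hrep]
  show (Quotient.mk (MulAction.orbitRel G X) (g • β)).out = _
  congr 1
  exact Quotient.sound (s := MulAction.orbitRel G X) ⟨g, rfl⟩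

section geo

variable {k K0 E U : Type} [Field k] [NumberField k] [Field K0] [Field E] [Field U]
  [Algebra k K0] [Algebra k E] [Algebra E U] [Algebra K0 U] [Algebra k U] [IsScalarTower k E U]
  [IsScalarTower k K0 U] {ℓ : ℕ} {x : K0} {f : Polynomial k} {r : U}

theorem mu_fixed (hμ : HasMu k ℓ) (hℓ : 0 < ℓ) (g : E ≃ₐ[k] E) {e : E} (he : e ^ ℓ = 1) :
    g e = e := by
  obtain ⟨ζ, hζ⟩ := hμ
  have : NeZero ℓ := ⟨hℓ.ne'⟩
  have h1 : IsPrimitiveRoot (algebraMap k E ζ) ℓ := hζ.map_of_injective (algebraMap k E).injective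
  obtain ⟨i, -, rfl⟩ := h1.eq_pow_of_pow_eq_one he
  rw [map_pow, g.commutes]

theorem act_au {c : k} {Φ : (E ≃ₐ[k] E) →* (U ≃+* U)} (A : Act (K0 := K0) ℓ r c Φ)
    (g : E ≃ₐ[k] E) : Au E K0 (Φ g) := ⟨A.fixK g, fun e => ⟨g e, A.const g e⟩⟩

theorem act_au_inv {c : k} {Φ : (E ≃ₐ[k] E) →* (U ≃+* U)} (A : Act (K0 := K0) ℓ r c Φ)
    (g : E ≃ₐ[k] E) : Au E K0 (Φ g)⁻¹ := by
  rw [← map_inv]
  exact act_au A g⁻¹

theorem pole_moves {T : U ≃+* U} {u : K0} (hT : Au E K0 T)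
    {Q Q' : Place E (YL E K0 ℓ (U := U))} (hQ : PoleAt u Q) (hm : Moves T _ Q Q') :
    PoleAt u Q' := by
  intro hx hmem
  have h1 := hm _ (K_mem_YL (ℓ := ℓ) (E := E) u) (by rw [hT.fixK]; exact hx)
  have h2 : (⟨T (algebraMap K0 U u), by rw [hT.fixK]; exact hx⟩ : YL E K0 ℓ (U := U)) =
    ⟨algebraMap K0 U u, hx⟩ := Subtype.ext (hT.fixK u)
  rw [h2] at h1
  exact hQ _ (h1.2 hmem)

theorem HypL.com_inf (H : HypL E ℓ x f r) (hℓ : ℓ.Prime) (hd : ¬ ℓ ∣ f.natDegree)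
    (hμ : HasMu k ℓ) {c : k} {Φ : (E ≃ₐ[k] E) →* (U ≃+* U)} (A : Act (K0 := K0) ℓ r c Φ)
    (hQ : ∀ σ : E ≃ₐ[k] E, ∃ Q : Place E (YL E K0 ℓ (U := U)), PoleAt x Q ∧ Moves (Φ σ) _ Q Q) :
    ∃ Q : Place E (YL E K0 ℓ (U := U)), PoleAt x Q ∧ ∀ g : E ≃ₐ[k] E, Moves (Φ g) _ Q Q := by
  classical
  have hcl : IsAlgClosed E := H.geo.clE
  have hfix : ∀ (g : E ≃ₐ[k] E) (e : E), e ^ ℓ = 1 → g e = e := fun g e he =>
    mu_fixed hμ hℓ.pos g he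
  have hY := H.ffY hℓ hd
  obtain ⟨ww, hww⟩ := H.exists_ww hℓ hd
  obtain ⟨t, ht0, htY, htT, htv⟩ := H.exists_t hℓ hd hww
  have htE : ∀ T : U ≃+* U, AuE E K0 T → ∃ c : E, c ^ ℓ = 1 ∧ T t = algebraMap E U c * t :=
    fun T hT => htT 1 T (hT.fixK x) fun e => hT.fixE e
  have hvY : ∀ β ∈ RB k E ℓ f, ww β / t ∈ YL E K0 ℓ (U := U) := fun β hβ =>
    div_mem (H.ww_mem (hww β hβ)) htY
  have hv0 : ∀ β ∈ RB k E ℓ f, ww β / t ≠ 0 := fun β hβ =>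
    div_ne_zero (H.ww_ne hℓ (hww β hβ)) ht0
  -- values
  have hval : ∀ Q : Place E (YL E K0 ℓ (U := U)), PoleAt x Q → ∃ q : E → E, ∀ β,
      ∀ hβ : β ∈ RB k E ℓ f, q β ^ ℓ = 1 ∧ Cg Q.ring (⟨ww β / t, hvY β hβ⟩ : YL E K0 ℓ) (q β) := by
    intro Q hQ
    have h1 : ∀ β : E, ∃ q : E, ∀ hβ : β ∈ RB k E ℓ f, q ^ ℓ = 1 ∧
        Cg Q.ring (⟨ww β / t, hvY β hβ⟩ : YL E K0 ℓ) q := by
      intro β
      by_cases hβ : β ∈ RB k E ℓ f
      · obtain ⟨q, hq, h2⟩ := cg_root hY Q hℓ.pos (htv Q hQ β hβ ⟨ww β / t, hvY β hβ⟩ rfl)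
        exact ⟨q, fun _ => ⟨hq, h2⟩⟩
      · exact ⟨0, fun h => absurd h hβ⟩
    choose q hq using h1
    exact ⟨q, hq⟩
  -- the cocycle
  have hcoc : ∀ g : E ≃ₐ[k] E, ∃ z : E → E, ∀ β ∈ RB k E ℓ f, z β ^ ℓ = 1 ∧
      Φ g (ww β / t) = algebraMap E U (z β) * (ww (g β) / t) := by
    intro g
    have h1 : ∀ β : E, ∃ z : E, β ∈ RB k E ℓ f → z ^ ℓ = 1 ∧
        Φ g (ww β / t) = algebraMap E U z * (ww (g β) / t) := by
      intro β
      by_cases hβ : β ∈ RB k E ℓ f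
      · obtain ⟨z, hz, h2⟩ := H.act_ww hℓ hww g (A.fixK g x) (A.const g) hβ
        obtain ⟨c', hc', h3⟩ := htT g (Φ g) (A.fixK g x) (A.const g)
        refine ⟨z / c', fun _ => ⟨by rw [div_pow, hz, hc', div_one], ?_⟩⟩
        rw [map_div₀, h2, h3, map_div₀, mul_div_mul_comm]
      · exact ⟨0, fun h => absurd h hβ⟩
    choose z hz using h1
    exact ⟨z, hz⟩
  choose z hz using hcoc
  have hne : ∀ {e : E}, e ^ ℓ = 1 → e ≠ 0 := by
    rintro e he rfl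
    rw [zero_pow hℓ.ne_zero] at he
    exact zero_ne_one he
  have hmul : ∀ (g h : E ≃ₐ[k] E), ∀ β ∈ RB k E ℓ f, z (g * h) β = z h β * z g (h β) := by
    intro g h β hβ
    have hhβ : h β ∈ RB k E ℓ f := (RB_gal h).2 hβ
    have h1 := (hz (g * h) β hβ).2
    have h2 : Φ (g * h) (ww β / t) = Φ g (Φ h (ww β / t)) := by rw [map_mul]; rfl
    rw [h2, (hz h β hβ).2, map_mul, A.const, hfix g _ (hz h β hβ).1, (hz g (h β) hhβ).2,
      ← mul_assoc, ← map_mul] at h1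
    have h3 : (g * h) β = g (h β) := rfl
    rw [h3] at h1
    have h4 := mul_right_cancel₀ (hv0 (g (h β)) ((RB_gal g).2 hhβ)) h1
    exact ((algebraMap E U).injective h4).symm
  have hstab : ∀ (g : E ≃ₐ[k] E), ∀ β ∈ RB k E ℓ f, g β = β → z g β = 1 := by
    intro g β hβ hgβ
    obtain ⟨Q, hQx, hQm⟩ := hQ g
    obtain ⟨q, hq⟩ := hval Q hQx
    have h1 := (hz g β hβ).2
    rw [hgβ] at h1
    have h2 := val_rule (σ := (g : E ≃+* E)) (fun e => A.const g e) hQm (hvY β hβ) (hvY β hβ) h1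
      (hq β hβ).2 (hq β hβ).2
    have h3 : g (q β) = z g β * q β := h2
    rw [hfix g _ (hq β hβ).1] at h3
    have h4 : 1 * q β = z g β * q β := by rw [one_mul]; exact h3
    exact (mul_right_cancel₀ (hne (hq β hβ).1) h4).symm
  -- the coboundary
  obtain ⟨rep, γ, hγ, hrep⟩ := exists_rep (E ≃ₐ[k] E) E
  have hγ' : ∀ β, γ β (rep β) = β := hγ
  have hrep' : ∀ (g : E ≃ₐ[k] E) (β : E), rep (g β) = rep β := hrep
  have hrepB : ∀ β ∈ RB k E ℓ f, rep β ∈ RB k E ℓ f := by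
    intro β hβ
    rw [← RB_gal (γ β), hγ']
    exact hβ
  obtain ⟨q, hq⟩ : ∃ q : E → E, q = fun β => (z (γ β) (rep β))⁻¹ := ⟨_, rfl⟩
  have hqℓ : ∀ β ∈ RB k E ℓ f, q β ^ ℓ = 1 := by
    intro β hβ
    rw [hq]
    show ((z (γ β) (rep β))⁻¹) ^ ℓ = 1
    rw [inv_pow, (hz (γ β) (rep β) (hrepB β hβ)).1, inv_one]
  have hqz : ∀ (g : E ≃ₐ[k] E), ∀ β ∈ RB k E ℓ f, q β = z g β * q (g β) := by
    intro g β hβ
    have hρ := hrepB β hβ
    obtain ⟨σ, hσ⟩ : ∃ σ, σ = (γ (g β))⁻¹ * (g * γ β) := ⟨_, rfl⟩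
    have h1 : σ (rep β) = rep β := by
      rw [hσ]
      show (γ (g β))⁻¹ (g (γ β (rep β))) = rep β
      rw [hγ']
      have h2 := hγ' (g β)
      rw [hrep'] at h2
      have h3 : (γ (g β))⁻¹ (γ (g β) (rep β)) = rep β := (γ (g β)).symm_apply_apply (rep β)
      rwa [h2] at h3
    have h2 := hmul (γ (g β)) σ (rep β) hρ
    rw [h1, hstab σ (rep β) hρ h1, one_mul] at h2
    have h3 : γ (g β) * σ = g * γ β := by rw [hσ, mul_inv_cancel_left]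
    rw [h3, hmul g (γ β) (rep β) hρ, hγ'] at h2
    rw [hq]
    show (z (γ β) (rep β))⁻¹ = z g β * (z (γ (g β)) (rep (g β)))⁻¹
    have h4 : z g β ≠ 0 := hne (hz g β hβ).1
    rw [hrep', ← h2, mul_inv, mul_comm (z (γ β) (rep β))⁻¹, ← mul_assoc, mul_inv_cancel₀ h4,
      one_mul]
  -- the place
  obtain ⟨Q₀, hQ₀, -⟩ := hQ 1
  obtain ⟨q₀, hq₀⟩ := hval Q₀ hQ₀
  obtain ⟨T, hT, hTw⟩ := H.exists_chi hℓ hww (fun β => q₀ β / q β) (fun β hβ => by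
    show (q₀ β / q β) ^ ℓ = 1
    rw [div_pow, (hq₀ β hβ).1, hqℓ β hβ, div_one])
  obtain ⟨c', hc', hTt⟩ := htE T hT
  obtain ⟨Q₁, hQ₁⟩ := exists_im (N := YL E K0 ℓ (U := U)) (au_YL hT.au) (au_YL hT.inv.au)
    hT.inv.au.presE Q₀
  have hQ₁x : PoleAt x Q₁ := pole_moves hT.au hQ₀ hQ₁
  obtain ⟨q₁, hq₁⟩ := hval Q₁ hQ₁x
  have hq₁e : ∀ β ∈ RB k E ℓ f, q₁ β = c' * q β := by
    intro β hβ
    have h1 : T (ww β / t) = algebraMap E U (q₀ β / q β / c') * (ww β / t) := by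
      rw [map_div₀, hTw β hβ, hTt, map_div₀ _ (q₀ β / q β), mul_div_mul_comm]
    have h2 := val_rule (σ := RingEquiv.refl E) hT.fixE hQ₁ (hvY β hβ) (hvY β hβ) h1
      (hq₀ β hβ).2 (hq₁ β hβ).2
    rw [RingEquiv.refl_apply] at h2
    have h3 := hne (hq₀ β hβ).1
    have h4 := hne (hqℓ β hβ)
    have h5 := hne hc'
    field_simp at h2
    rw [mul_comm c']
    exact h2.symm
  refine ⟨Q₁, hQ₁x, fun g => ?_⟩
  obtain ⟨Q₂, hQ₂⟩ := exists_im (N := YL E K0 ℓ (U := U)) (au_YL (act_au A g))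
    (au_YL (act_au_inv A g)) (act_au_inv A g).presE Q₁
  have hQ₂x : PoleAt x Q₂ := pole_moves (act_au A g) hQ₁x hQ₂
  obtain ⟨q₂, hq₂⟩ := hval Q₂ hQ₂x
  have hq₂e : ∀ β ∈ RB k E ℓ f, q₂ (g β) = q₁ (g β) := by
    intro β hβ
    have hgβ : g β ∈ RB k E ℓ f := (RB_gal g).2 hβ
    have h2 := val_rule (σ := (g : E ≃+* E)) (fun e => A.const g e) hQ₂ (hvY β hβ) (hvY _ hgβ)
      (hz g β hβ).2 (hq₁ β hβ).2 (hq₂ _ hgβ).2
    have h3 : g (q₁ β) = z g β * q₂ (g β) := h2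
    rw [hfix g _ (hq₁ β hβ).1, hq₁e β hβ, hqz g β hβ] at h3
    rw [hq₁e _ hgβ]
    have h4 : z g β * q₂ (g β) = z g β * (c' * q (g β)) := by rw [← h3]; ring
    exact mul_left_cancel₀ (hne (hz g β hβ).1) h4
  have hEq : Q₂ = Q₁ := H.uniq hℓ hd hww htY htE hQ₂x hQ₁x (fun β hβ y hy => by
    have hβ' : g.symm β ∈ RB k E ℓ f := (RB_gal g.symm).2 hβ
    have h1 := hq₂e _ hβ'
    rw [g.apply_symm_apply] at h1
    have h2 : y = ⟨ww β / t, hvY β hβ⟩ := Subtype.ext hy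
    refine ⟨q₂ β, hne (hq₂ β hβ).1, ?_, ?_⟩
    · rw [h2]
      exact (hq₂ β hβ).2
    · rw [h2, h1]
      exact (hq₁ β hβ).2)
  rw [hEq] at hQ₂
  exact hQ₂

end geo

theorem cOML : StmtCOML := by
  intro k K0 E U _ _ _ _ _ _ _ _ _ _ _ _ ℓ x f r hℓ hμ H u hu c Φ _ A hQ
  rcases hu with ⟨rfl, hd⟩ | ⟨α, hα, rfl⟩
  · exact H.com_inf hℓ hd hμ A hQ
  · obtain ⟨F, s, -, hd, H'⟩ := H.coord hℓ hα
    exact H'.com_inf hℓ hd hμ (act_mul A) hQ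

end Pool.Agent.PDL
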