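import Pool.Agent.Helper45.PD.YLa

/-!
# Project PD: a finite rational branch point is moved to infinity
-/

set_option autoImplicit false
set_option linter.unusedSectionVars false

namespace Pool.Agent.PDL

open VC IntermediateField NumberField IsDedekindDomain Pool.Agent.SC
open Pool.Agent.L (L0 MM)
open Pool.Agent.LN (Geo Act)
open Pool.Agent.M (Moves OverPl inL0 Cg moves_comp moves_unique moves_one moves_congr)
open Pool.Agent.ML (HasMu BPl)

section gen

variable {E K0 U : Type} [Field E] [Field K0] [Field U] [Algebra E U] [Algebra K0 U] {ℓ : ℕ}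

theorem mm_mul {r : U} {s : K0} (hs : s ≠ 0) :
    MM E K0 (r * algebraMap K0 U s) = MM E K0 r := by
  apply le_antisymm
  · refine IntermediateField.adjoin_le_iff.2 ?_
    rintro x (⟨c, rfl⟩ | hx)
    · exact L0_le_MM (K_mem c)
    · rw [Set.mem_singleton_iff.1 hx]
      exact mul_mem r_mem (L0_le_MM (K_mem s))
  · refine IntermediateField.adjoin_le_iff.2 ?_
    rintro x (⟨c, rfl⟩ | hx)
    · exact L0_le_MM (K_mem c)
    · rw [Set.mem_singleton_iff.1 hx]
      have h1 : algebraMap K0 U s ≠ 0 := (_root_.map_ne_zero _).2 hs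
      have h2 := div_mem (r_mem (E := E) (K0 := K0) (r := r * algebraMap K0 U s))
        (L0_le_MM (r := r * algebraMap K0 U s) (K_mem s))
      rwa [mul_div_cancel_right₀ _ h1] at h2

theorem geo_mul {k : Type} [Field k] [Algebra k K0] [Algebra k E] [Algebra k U] {h h' s : K0}
    {r : U} (G : Geo k K0 E U ℓ h r) (hs : s ≠ 0) (hh : h' = h * s ^ ℓ) :
    Geo k K0 E U ℓ h' (r * algebraMap K0 U s) where
  algE := G.algE
  clE := G.clE
  ff := G.ff
  rpow := by rw [mul_pow, G.rpow, hh, map_mul, map_pow]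
  rnot := by
    intro i hi hil h1
    apply G.rnot i hi hil
    rw [mul_pow, ← map_pow] at h1
    have h2 : algebraMap K0 U (s ^ i) ≠ 0 := (_root_.map_ne_zero _).2 (pow_ne_zero i hs)
    have h3 := div_mem h1 (K_mem (E := E) (U := U) (s ^ i))
    rwa [mul_div_cancel_right₀ _ h2] at h3
  cover := by rw [mm_mul hs]; exact G.cover
  nonrat := by rw [mm_mul hs]; exact G.nonrat
  normal := G.normal

theorem act_mul {k : Type} [Field k] [Algebra k K0] [Algebra k E] {s : K0} {r : U} {c : k}
    {Φ : (E ≃ₐ[k] E) →* (U ≃+* U)} (A : Act (K0 := K0) ℓ r c Φ) :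
    Act (K0 := K0) ℓ (r * algebraMap K0 U s) c Φ where
  const := A.const
  fixK := A.fixK
  tw := by
    obtain ⟨d, hd, h1⟩ := A.tw
    refine ⟨d, hd, fun g => ?_⟩
    rw [map_mul, A.fixK, mul_right_comm, h1, mul_assoc]
  cont := A.cont

end gen

section geo

variable {k K0 E U : Type} [Field k] [NumberField k] [Field K0] [Field E] [Field U]
  [Algebra k K0] [Algebra k E] [Algebra E U] [Algebra K0 U] [Algebra k U] [IsScalarTower k E U]
  [IsScalarTower k K0 U] {ℓ : ℕ} {x : K0} {f : Polynomial k} {r : U}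

open Polynomial in
theorem HypL.coord (H : HypL E ℓ x f r) (hℓ : ℓ.Prime) {α : k}
    (hα : ¬ ℓ ∣ f.rootMultiplicity α) :
    ∃ (F : Polynomial k) (s : K0), s ≠ 0 ∧ ¬ ℓ ∣ F.natDegree ∧
      HypL E ℓ (x - algebraMap k K0 α)⁻¹ F (r * algebraMap K0 U s) := by
  obtain ⟨v, hv⟩ : ∃ v : K0, v = (x - algebraMap k K0 α)⁻¹ := ⟨_, rfl⟩
  have hxα : x - algebraMap k K0 α ≠ 0 := by
    intro h
    apply H.tr
    rw [sub_eq_zero.1 h]
    exact isAlgebraic_algebraMap α
  have hv0 : v ≠ 0 := by rw [hv]; exact inv_ne_zero hxα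
  have hxv : x - algebraMap k K0 α = v⁻¹ := by rw [hv, inv_inv]
  obtain ⟨g, hg⟩ : ∃ g : Polynomial k, g = f.comp (X + C α) := ⟨_, rfl⟩
  have hgd : g.natDegree = f.natDegree := by
    rw [hg, natDegree_comp, natDegree_X_add_C, mul_one]
  have hgt : g.natTrailingDegree = f.rootMultiplicity α := by
    rw [hg, rootMultiplicity_eq_natTrailingDegree]
  have hf0 : f ≠ 0 := by
    rintro rfl
    exact H.f_ne hℓ (Polynomial.map_zero _)
  have hg0 : g ≠ 0 := by
    intro h
    rw [h, natTrailingDegree_zero] at hgt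
    rw [← hgt] at hα
    exact hα (dvd_zero _)
  have hgv : aeval v⁻¹ g = aeval x f := by
    rw [hg, aeval_comp, map_add, aeval_X, aeval_C, ← hxv, sub_add_cancel]
  have hrev : aeval v g.reverse = aeval x f * v ^ f.natDegree := by
    let _ : Invertible v⁻¹ := invertibleOfNonzero (inv_ne_zero hv0)
    have h2 := eval₂_reverse_mul_pow (algebraMap k K0) v⁻¹ g
    have h3 : ⅟(v⁻¹) = v := by rw [invOf_eq_inv, inv_inv]
    rw [h3, hgd] at h2
    have h4 : aeval v g.reverse * v⁻¹ ^ f.natDegree = aeval x f := by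
      rw [← hgv]
      exact h2
    rw [← h4, mul_assoc, ← mul_pow, inv_mul_cancel₀ hv0, one_pow, mul_one]
  refine ⟨X ^ (ℓ * f.natDegree - f.natDegree) * g.reverse, v ^ f.natDegree,
    pow_ne_zero _ hv0, ?_, ?_⟩
  · rw [natDegree_mul (pow_ne_zero _ X_ne_zero) (by rw [Ne, reverse_eq_zero]; exact hg0),
      natDegree_X_pow, reverse_natDegree, hgd, hgt]
    have h1 : f.rootMultiplicity α ≤ f.natDegree := by
      rw [← hgt, ← hgd]
      exact natTrailingDegree_le_natDegree g
    have h2 : f.natDegree ≤ ℓ * f.natDegree := Nat.le_mul_of_pos_left _ hℓ.pos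
    intro h3
    apply hα
    have h4 : ℓ * f.natDegree - f.natDegree + (f.natDegree - f.rootMultiplicity α) +
      f.rootMultiplicity α = ℓ * f.natDegree := by omega
    exact (Nat.dvd_add_right h3).1 (by rw [h4]; exact dvd_mul_right _ _)
  · rw [← hv]
    refine ⟨geo_mul H.geo (pow_ne_zero _ hv0) ?_, ?_, ?_⟩
    · rw [map_mul, map_pow, aeval_X, hrev]
      have h2 : f.natDegree ≤ ℓ * f.natDegree := Nat.le_mul_of_pos_left _ hℓ.pos
      calc v ^ (ℓ * f.natDegree - f.natDegree) * (aeval x f * v ^ f.natDegree)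
          = aeval x f * v ^ (ℓ * f.natDegree - f.natDegree + f.natDegree) := by
            rw [pow_add]; ring
        _ = _ := by rw [Nat.sub_add_cancel h2, ← pow_mul, mul_comm ℓ]
    · rw [eq_top_iff, ← H.gen, IntermediateField.adjoin_simple_le_iff]
      have h1 : x = v⁻¹ + algebraMap k K0 α := by rw [← hxv, sub_add_cancel]
      rw [h1]
      exact add_mem (inv_mem (mem_adjoin_simple_self k v)) ((k⟮v⟯).algebraMap_mem α)
    · intro h
      apply H.tr
      have h1 : x = v⁻¹ + algebraMap k K0 α := by rw [← hxv, sub_add_cancel]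
      rw [h1]
      exact h.inv.add (isAlgebraic_algebraMap α)

end geo

end Pool.Agent.PDL
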