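import Pool.Agent.Helper45.ML.Defs

/-!
# Project PD (MP_e66f84_ag): the level `1 - ζ` of the twists of a cyclic cover of the line

`k` a number field which contains the `ℓ`-th roots of unity, `K0 = k(x)`, `y ^ ℓ = f(x)`,
`f ∈ k[x]` any polynomial.  `YL` is the maximal extension of exponent `ℓ` of `L0 = E(x)` which is
contained in `U`.
-/

set_option autoImplicit false

namespace Pool.Agent.PDL

open VC IntermediateField NumberField IsDedekindDomain Pool.Agent.SC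
open Pool.Agent.L (L0 MM)
open Pool.Agent.LN (Geo Act)
open Pool.Agent.M (Moves OverPl inL0)
open Pool.Agent.ML (HasMu BPl)

noncomputable section

/-- the level `1 - ζ`: generated by all `w ∈ U` with `w ^ ℓ ∈ L0` -/
def YL (E K0 : Type) {U : Type} [Field E] [Field K0] [Field U] [Algebra E U] [Algebra K0 U]
    (ℓ : ℕ) : IntermediateField E U :=
  IntermediateField.adjoin E ((L0 E K0 (U := U) : Set U) ∪ {w | w ^ ℓ ∈ L0 E K0 (U := U)})

/-- `K0 = k(x)`, and `X : y ^ ℓ = f(x)`, `f` any polynomial over `k`. -/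
structure HypL {k K0 : Type} (E : Type) {U : Type} [Field k] [Field K0] [Field E] [Field U]
    [Algebra k K0] [Algebra k E] [Algebra E U] [Algebra K0 U] [Algebra k U] (ℓ : ℕ) (x : K0)
    (f : Polynomial k) (r : U) : Prop where
  geo : Geo k K0 E U ℓ (Polynomial.aeval x f) r
  gen : IntermediateField.adjoin k {x} = ⊤
  tr : Transcendental k x

/-- `u` has a pole at the place `Q` -/
def PoleAt {E K0 U : Type} [Field E] [Field K0] [Field U] [Algebra E U] [Algebra K0 U] (u : K0)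
    {N : IntermediateField E U} (Q : Place E N) : Prop :=
  ∀ hu : algebraMap K0 U u ∈ N, (⟨algebraMap K0 U u, hu⟩ : N) ∉ Q.ring

/-- the rational branch points: infinity (`PoleAt x`) and the roots `α ∈ k` of `f` of multiplicity
not divisible by `ℓ` (`PoleAt (x - α)⁻¹`) -/
def IsRatBr {k K0 : Type} [Field k] [Field K0] [Algebra k K0] (ℓ : ℕ) (x : K0)
    (f : Polynomial k) (u : K0) : Prop :=
  (u = x ∧ ¬ ℓ ∣ f.natDegree) ∨
    ∃ α : k, ¬ ℓ ∣ f.rootMultiplicity α ∧ u = (x - algebraMap k K0 α)⁻¹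

/-- BLOCK YL1: the level `1 - ζ` is a finite level, abelian of exponent `ℓ` over `L0`. -/
def StmtYL1 : Prop :=
  ∀ (k K0 E U : Type) [Field k] [NumberField k] [Field K0] [Field E] [Field U] [Algebra k K0]
    [Algebra k E] [Algebra E U] [Algebra K0 U] [Algebra k U] [IsScalarTower k E U]
    [IsScalarTower k K0 U] (ℓ : ℕ) (x : K0) (f : Polynomial k) (r : U), ℓ.Prime →
    HypL E ℓ x f r → (∃ u : K0, IsRatBr ℓ x f u) →
    IsFunctionField E (YL E K0 ℓ (U := U)) ∧ (∀ y : K0, algebraMap K0 U y ∈ YL E K0 ℓ (U := U)) ∧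
    MM E K0 r ≤ YL E K0 ℓ ∧
    (∀ T : U ≃+* U, (∀ y : K0, T (algebraMap K0 U y) = algebraMap K0 U y) →
      (∀ e : E, ∃ e' : E, T (algebraMap E U e) = algebraMap E U e') →
      ∀ z ∈ YL E K0 ℓ (U := U), T z ∈ YL E K0 ℓ (U := U)) ∧
    (∀ a : U ≃ₐ[E] U, (∀ z ∈ L0 E K0 (U := U), a z = z) →
      ∀ z ∈ YL E K0 ℓ (U := U), (a ^ ℓ) z = z) ∧
    ∀ a b : U ≃ₐ[E] U, (∀ z ∈ L0 E K0 (U := U), a z = z) → (∀ z ∈ L0 E K0 (U := U), b z = z) →
      ∀ z ∈ YL E K0 ℓ (U := U), a (b z) = b (a z)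

/-- BLOCK COML: a common fixed place. -/
def StmtCOML : Prop :=
  ∀ (k K0 E U : Type) [Field k] [NumberField k] [Field K0] [Field E] [Field U] [Algebra k K0]
    [Algebra k E] [Algebra E U] [Algebra K0 U] [Algebra k U] [IsScalarTower k E U]
    [IsScalarTower k K0 U] (ℓ : ℕ) (x : K0) (f : Polynomial k) (r : U), ℓ.Prime → HasMu k ℓ →
    HypL E ℓ x f r → ∀ u : K0, IsRatBr ℓ x f u →
    ∀ (c : k) (Φ : (E ≃ₐ[k] E) →* (U ≃+* U)), c ≠ 0 → Act (K0 := K0) ℓ r c Φ →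
    (∀ σ : E ≃ₐ[k] E, ∃ Q : Place E (YL E K0 ℓ (U := U)), PoleAt u Q ∧ Moves (Φ σ) _ Q Q) →
    ∃ Q : Place E (YL E K0 ℓ (U := U)), PoleAt u Q ∧ ∀ g : E ≃ₐ[k] E, Moves (Φ g) _ Q Q

end

end Pool.Agent.PDL
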