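import Pool.Agent.Helper45.PD.Ku

/-!
# Project PD: the degree of `MM` over `E(x)` is at most `ℓ`
-/

set_option autoImplicit false
set_option linter.unusedSectionVars false

namespace Pool.Agent.PDL

open VC IntermediateField NumberField IsDedekindDomain Pool.Agent.SC
open Pool.Agent.L (L0 MM)
open Pool.Agent.LN (Geo Act)
open Pool.Agent.M (Moves OverPl inL0)
open Pool.Agent.ML (HasMu BPl)

section geo

variable {k K0 E U : Type} [Field k] [NumberField k] [Field K0] [Field E] [Field U]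
  [Algebra k K0] [Algebra k E] [Algebra E U] [Algebra K0 U] [Algebra k U] [IsScalarTower k E U]
  [IsScalarTower k K0 U] {ℓ : ℕ} {x : K0} {f : Polynomial k} {r : U}

/-- `K0` is contained in `E(x)` -/
theorem HypL.K_in (H : HypL E ℓ x f r) (N : IntermediateField E U) (X : N)
    (hX : (X : U) = algebraMap K0 U x) (y : K0) :
    ∃ h : algebraMap K0 U y ∈ N, (⟨algebraMap K0 U y, h⟩ : N) ∈ E⟮X⟯ := by
  have hy : y ∈ IntermediateField.adjoin k {x} := by rw [H.gen]; trivial
  obtain ⟨p, q, rfl⟩ := (mem_adjoin_simple_iff k y).1 hy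
  have h1 : ∀ p : Polynomial k, algebraMap K0 U (Polynomial.aeval x p) =
      ((Polynomial.aeval X (p.map (algebraMap k E)) : N) : U) := by
    intro p
    rw [coe_aeval, aeval_f _ hX]
  have h2 : algebraMap K0 U (Polynomial.aeval x p / Polynomial.aeval x q) =
      ((Polynomial.aeval X (p.map (algebraMap k E)) / Polynomial.aeval X (q.map (algebraMap k E)) :
        N) : U) := by
    rw [map_div₀, h1, h1]
    rfl
  refine ⟨by rw [h2]; exact Subtype.coe_prop _, ?_⟩
  have h3 : ∀ p : Polynomial E, Polynomial.aeval X p ∈ E⟮X⟯ := fun p =>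
    algebra_adjoin_le_adjoin _ _ (Polynomial.aeval_mem_adjoin_singleton _ _)
  have h4 : (⟨algebraMap K0 U (Polynomial.aeval x p / Polynomial.aeval x q),
      by rw [h2]; exact Subtype.coe_prop _⟩ : N) =
      Polynomial.aeval X (p.map (algebraMap k E)) / Polynomial.aeval X (q.map (algebraMap k E)) :=
    Subtype.ext h2
  rw [h4]
  exact div_mem (h3 _) (h3 _)

theorem HypL.top_L0 (H : HypL E ℓ x f r) : E⟮(inL0 x : L0 E K0 (U := U))⟯ = ⊤ := by
  rw [eq_top_iff]
  rintro ⟨z, hz⟩ -
  have key : ∀ z ∈ IntermediateField.adjoin E (Set.range (algebraMap K0 U)),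
      ∀ hz : z ∈ L0 E K0 (U := U), (⟨z, hz⟩ : L0 E K0 (U := U)) ∈
        E⟮(inL0 x : L0 E K0 (U := U))⟯ := by
    intro z hz
    induction hz using IntermediateField.adjoin_induction with
    | mem y hy =>
      obtain ⟨c, rfl⟩ := hy
      intro _
      exact (H.K_in _ (inL0 x : L0 E K0 (U := U)) rfl c).2
    | algebraMap e =>
      intro _
      exact (E⟮(inL0 x : L0 E K0 (U := U))⟯).algebraMap_mem e
    | add y z hy hz h1 h2 =>
      intro _
      exact add_mem (h1 hy) (h2 hz)
    | inv y hy h1 =>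
      intro _
      exact inv_mem (h1 hy)
    | mul y z hy hz h1 h2 =>
      intro _
      exact mul_mem (h1 hy) (h2 hz)
  exact key z hz hz

theorem HypL.finrank_le (H : HypL E ℓ x f r) (hℓ : ℓ.Prime) (α : E) :
    Module.finrank E⟮XM E r x - algebraMap E (MM E K0 r) α⟯ (MM E K0 r) ≤ ℓ := by
  obtain ⟨t, ht⟩ : ∃ t, t = XM E r x - algebraMap E (MM E K0 r) α := ⟨_, rfl⟩
  rw [← ht]
  have hX : XM E r x ∈ E⟮t⟯ := by
    have h1 := add_mem (mem_adjoin_simple_self E t) (E⟮t⟯.algebraMap_mem α)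
    rw [ht, sub_add_cancel] at h1
    rw [ht]
    exact h1
  have hle : E⟮XM E r x⟯ ≤ E⟮t⟯ := by
    rw [IntermediateField.adjoin_simple_le_iff]
    exact hX
  obtain ⟨R, hR⟩ : ∃ R : MM E K0 r, R = ⟨r, r_mem⟩ := ⟨_, rfl⟩
  have hRl : R ^ ℓ ∈ E⟮t⟯ := by
    rw [hR, H.rpow']
    apply hle
    exact algebra_adjoin_le_adjoin _ _ (Polynomial.aeval_mem_adjoin_singleton _ _)
  have htop : (E⟮t⟯)⟮R⟯ = ⊤ := by
    rw [eq_top_iff]
    rintro ⟨z, hz⟩ -
    have key : ∀ z ∈ IntermediateField.adjoin E (Set.range (algebraMap K0 U) ∪ {r}),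
        ∀ hz : z ∈ MM E K0 r, (⟨z, hz⟩ : MM E K0 r) ∈ (E⟮t⟯)⟮R⟯ := by
      intro z hz
      induction hz using IntermediateField.adjoin_induction with
      | mem y hy =>
        intro hy'
        rcases hy with ⟨c, rfl⟩ | hy
        · exact ((E⟮t⟯)⟮R⟯).algebraMap_mem
            (⟨_, hle (H.K_in _ (XM E r x) rfl c).2⟩ : E⟮t⟯)
        · rw [Set.mem_singleton_iff] at hy
          have h1 : (⟨y, hy'⟩ : MM E K0 r) = R := by
            rw [hR]
            exact Subtype.ext hy
          rw [h1]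
          exact mem_adjoin_simple_self _ R
      | algebraMap e =>
        intro _
        exact ((E⟮t⟯)⟮R⟯).algebraMap_mem (algebraMap E (E⟮t⟯) e)
      | add y z hy hz h1 h2 =>
        intro _
        exact add_mem (h1 hy) (h2 hz)
      | inv y hy h1 =>
        intro _
        exact inv_mem (h1 hy)
      | mul y z hy hz h1 h2 =>
        intro _
        exact mul_mem (h1 hy) (h2 hz)
    exact key z hz hz
  obtain ⟨p, hp⟩ : ∃ p : Polynomial (E⟮t⟯), p = Polynomial.X ^ ℓ - Polynomial.C ⟨R ^ ℓ, hRl⟩ :=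
    ⟨_, rfl⟩
  have hpm : p.Monic := by rw [hp]; exact Polynomial.monic_X_pow_sub_C _ hℓ.ne_zero
  have hp0 : Polynomial.aeval R p = 0 := by
    rw [hp, map_sub, map_pow, Polynomial.aeval_X, Polynomial.aeval_C]
    exact sub_self _
  have hint : IsIntegral (E⟮t⟯) R := ⟨p, hpm, hp0⟩
  have h1 := IntermediateField.adjoin.finrank hint
  rw [htop, IntermediateField.finrank_top'] at h1
  rw [h1]
  refine (Polynomial.natDegree_le_of_dvd (minpoly.dvd _ _ hp0) hpm.ne_zero).trans ?_
  rw [hp, Polynomial.natDegree_X_pow_sub_C]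

end geo

end Pool.Agent.PDL
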