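import Pool.Agent.Helper28.TW.KX2a

/-!
# Project PD: orders of a polynomial in `X`
-/

set_option autoImplicit false

namespace Pool.Agent.PDL

open VC IntermediateField Polynomial
open Pool.Agent.TOW.KX2aux (X_sub_ne X_sub_tr ord_sub_ne ord_sub_inf)

variable {E F : Type*} [Field E] [Field F] [Algebra E F] {X : F} [IsAlgClosed E]
  (hF : IsFunctionField E F)

include hF

/-- the order of `p(X)` at a zero of `X - α` -/
theorem ord_fin (hX : Transcendental E X) {P : Place E F} {α : E}
    (hP : X - algebraMap E F α ∈ P.ring.nonunits) {p : E[X]} (hp : p ≠ 0) :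
    ord P.ring (aeval X p) = p.rootMultiplicity α * ord P.ring (X - algebraMap E F α) := by
  classical
  have h1 : ∀ s : Multiset E, ord P.ring (s.map fun a => X - algebraMap E F a).prod =
      s.count α * ord P.ring (X - algebraMap E F α) ∧
      (s.map fun a => X - algebraMap E F a).prod ≠ 0 := by
    intro s
    induction s using Multiset.induction_on with
    | empty => simp [FF.ord_one hF P]
    | cons a s ih =>
      rw [Multiset.map_cons, Multiset.prod_cons]
      refine ⟨?_, mul_ne_zero (X_sub_ne hX a) ih.2⟩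
      rw [FF.ord_mul hF P (X_sub_ne hX a) ih.2, ih.1]
      by_cases ha : a = α
      · subst ha
        rw [Multiset.count_cons_self]
        push_cast
        ring
      · rw [Multiset.count_cons_of_ne (Ne.symm ha), ord_sub_ne hF hX hP ha, zero_add]
  obtain ⟨h2, h3⟩ := h1 p.roots
  have h4 : aeval X p = algebraMap E F p.leadingCoeff *
      (p.roots.map fun a => X - algebraMap E F a).prod := by
    conv_lhs => rw [(IsAlgClosed.splits p).eq_prod_roots]
    rw [map_mul, aeval_C, map_multiset_prod, Multiset.map_map]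
    simp only [Function.comp_def, map_sub, aeval_X, aeval_C]
  have h5 : p.leadingCoeff ≠ 0 := leadingCoeff_ne_zero.2 hp
  rw [h4, FF.ord_mul hF P ((_root_.map_ne_zero _).2 h5) h3, FF.ord_algebraMap hF P h5, zero_add, h2,
    count_roots]

/-- the order of `p(X)` at a pole of `X` -/
theorem ord_inf (hX : Transcendental E X) {P : Place E F} (hP : X ∉ P.ring) {p : E[X]}
    (hp : p ≠ 0) : ord P.ring (aeval X p) = p.natDegree * ord P.ring X := by
  have h1 : ∀ s : Multiset E, ord P.ring (s.map fun a => X - algebraMap E F a).prod =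
      s.card * ord P.ring X ∧ (s.map fun a => X - algebraMap E F a).prod ≠ 0 := by
    intro s
    induction s using Multiset.induction_on with
    | empty => simp [FF.ord_one hF P]
    | cons a s ih =>
      rw [Multiset.map_cons, Multiset.prod_cons, Multiset.card_cons]
      refine ⟨?_, mul_ne_zero (X_sub_ne hX a) ih.2⟩
      rw [FF.ord_mul hF P (X_sub_ne hX a) ih.2, ih.1, ord_sub_inf hF hP]
      push_cast
      ring
  obtain ⟨h2, h3⟩ := h1 p.roots
  have h4 : aeval X p = algebraMap E F p.leadingCoeff *
      (p.roots.map fun a => X - algebraMap E F a).prod := by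
    conv_lhs => rw [(IsAlgClosed.splits p).eq_prod_roots]
    rw [map_mul, aeval_C, map_multiset_prod, Multiset.map_map]
    simp only [Function.comp_def, map_sub, aeval_X, aeval_C]
  have h5 : p.leadingCoeff ≠ 0 := leadingCoeff_ne_zero.2 hp
  rw [h4, FF.ord_mul hF P ((_root_.map_ne_zero _).2 h5) h3, FF.ord_algebraMap hF P h5, zero_add, h2,
    (IsAlgClosed.splits p).natDegree_eq_card_roots]

/-- simple zeros, if the field is `E(X)` -/
theorem ord_eq_one (hX : Transcendental E X) {P : Place E F} {α : E}
    (hP : X - algebraMap E F α ∈ P.ring.nonunits) (htop : E⟮X⟯ = ⊤) :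
    ord P.ring (X - algebraMap E F α) = 1 := by
  obtain ⟨π, hπ0, hπ⟩ := FF.exists_uniformizer hF P
  have h0 : π ∈ E⟮X⟯ := by rw [htop]; trivial
  obtain ⟨c, n, hc, h1⟩ := Pool.Agent.TOW.KX2aux.fac hX h0 hπ0
  rw [h1, Pool.Agent.TOW.KX2aux.ord_fac hF hX hP hc] at hπ
  have h3 := (FF.ord_pos_iff hF P (X_sub_ne hX α)).2 hP
  exact Int.eq_one_of_dvd_one h3.le (Dvd.intro_left _ hπ)

end Pool.Agent.PDL
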