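import Pool.Agent.Helper45.PD.Defs
import Pool.Agent.Helper45.PD.Ord
import Pool.Agent.SC.CoverLevels

/-!
# Project PD: Kummer theory of the level `1 - ζ`, part one: the roots of `x - β`
-/

set_option autoImplicit false
set_option linter.unusedSectionVars false

namespace Pool.Agent.PDL

open VC IntermediateField NumberField IsDedekindDomain Pool.Agent.SC
open Pool.Agent.L (L0 MM)
open Pool.Agent.LN (Geo Act)
open Pool.Agent.M (Moves OverPl inL0)
open Pool.Agent.ML (HasMu BPl)
open Pool.Agent.TOW.KX2aux (X_sub_ne X_sub_tr ord_sub_ne ord_sub_inf)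

section geo

variable {k K0 E U : Type} [Field k] [NumberField k] [Field K0] [Field E] [Field U]
  [Algebra k K0] [Algebra k E] [Algebra E U] [Algebra K0 U] [Algebra k U] [IsScalarTower k E U]
  [IsScalarTower k K0 U] {ℓ : ℕ} {x : K0} {f : Polynomial k} {r : U}

theorem HypL.chE (_ : HypL E ℓ x f r) : CharZero E :=
  charZero_of_injective_algebraMap (algebraMap k E).injective

theorem HypL.chU (_ : HypL E ℓ x f r) : CharZero U :=
  charZero_of_injective_algebraMap (algebraMap k U).injective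

theorem HypL.trU (H : HypL E ℓ x f r) : Transcendental E (algebraMap K0 U x) := by
  have halg : Algebra.IsAlgebraic k E := H.geo.algE
  intro h
  have h1 : IsAlgebraic k (algebraMap K0 U x) := h.restrictScalars k
  exact H.tr ((isAlgebraic_algebraMap_iff (algebraMap K0 U).injective).1 h1)

theorem L0_le_MM : L0 E K0 (U := U) ≤ MM E K0 r :=
  IntermediateField.adjoin.mono _ _ _ Set.subset_union_left

theorem K_mem (y : K0) : algebraMap K0 U y ∈ L0 E K0 (U := U) :=
  IntermediateField.subset_adjoin _ _ ⟨y, rfl⟩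

theorem r_mem : r ∈ MM E K0 r := IntermediateField.subset_adjoin _ _ (Set.mem_union_right _ rfl)

/-- `x` in `MM` -/
def XM (E : Type) {U : Type} [Field E] [Field U] [Algebra E U] [Algebra K0 U] (r : U) (x : K0) :
    MM E K0 r := ⟨algebraMap K0 U x, L0_le_MM (K_mem x)⟩

theorem HypL.trM (H : HypL E ℓ x f r) : Transcendental E (XM E r x) := by
  intro h
  apply H.trU
  exact h.algebraMap (A := U)

theorem HypL.trL (H : HypL E ℓ x f r) : Transcendental E (inL0 x : L0 E K0 (U := U)) := by
  intro h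
  apply H.trU
  exact h.algebraMap (A := U)

theorem HypL.f_ne (H : HypL E ℓ x f r) (hℓ : ℓ.Prime) : f.map (algebraMap k E) ≠ 0 := by
  rw [Ne, Polynomial.map_eq_zero]
  rintro rfl
  refine H.geo.rnot 1 one_pos hℓ.one_lt ?_
  rw [pow_one]
  have h1 := H.geo.rpow
  rw [map_zero, map_zero] at h1
  rw [pow_eq_zero_iff hℓ.ne_zero |>.1 h1]
  exact zero_mem _

theorem HypL.r_ne (H : HypL E ℓ x f r) (hℓ : ℓ.Prime) : r ≠ 0 := by
  rintro rfl
  refine H.geo.rnot 1 one_pos hℓ.one_lt ?_
  rw [pow_one]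
  exact zero_mem _

theorem coe_aeval {N : IntermediateField E U} (X : N) (p : Polynomial E) :
    ((Polynomial.aeval X p : N) : U) = Polynomial.aeval (X : U) p :=
  (Polynomial.aeval_algebraMap_apply U X p).symm

theorem aeval_f (X : U) (hX : X = algebraMap K0 U x) :
    Polynomial.aeval X (f.map (algebraMap k E)) = algebraMap K0 U (Polynomial.aeval x f) := by
  rw [hX, Polynomial.aeval_map_algebraMap, Polynomial.aeval_algebraMap_apply]

theorem HypL.rpow' (H : HypL E ℓ x f r) :
    (⟨r, r_mem⟩ : MM E K0 r) ^ ℓ = Polynomial.aeval (XM E r x) (f.map (algebraMap k E)) := by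
  apply Subtype.ext
  refine Eq.trans (b := algebraMap K0 U (Polynomial.aeval x f)) H.geo.rpow ?_
  exact (aeval_f (XM E r x : U) rfl).symm.trans (coe_aeval (XM E r x) _).symm

/-- the roots of `x - β` at the branch points, if infinity is a branch point -/
theorem HypL.exists_w (H : HypL E ℓ x f r) (hℓ : ℓ.Prime) (hd : ¬ ℓ ∣ f.natDegree) {β : E}
    (hβ : ¬ ℓ ∣ (f.map (algebraMap k E)).rootMultiplicity β) :
    ∃ w : U, w ^ ℓ = algebraMap K0 U x - algebraMap E U β := by
  have hcl : IsAlgClosed E := H.geo.clE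
  have hM := H.geo.cover.ff
  have hX := H.trM
  have hp : Prime (ℓ : ℤ) := Nat.prime_iff_prime_int.1 hℓ
  have hr0 : (⟨r, r_mem⟩ : MM E K0 r) ≠ 0 := fun h => H.r_ne hℓ (congrArg Subtype.val h)
  obtain ⟨w, hw⟩ := H.geo.cover.exists_root (N := MM E K0 r) hM (X_sub_ne hX β) hℓ.pos (fun Q => by
    have h1 := FF.ord_pow hM Q hr0 ℓ
    rw [H.rpow'] at h1
    by_cases hQ : XM E r x ∈ Q.ring
    · obtain ⟨α, hα⟩ := FF.exists_residue hM Q hQ
      by_cases hαβ : β = α
      · subst hαβ
        rw [ord_fin hM hX hα (H.f_ne hℓ)] at h1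
        have h2 : (ℓ : ℤ) ∣ ((f.map (algebraMap k E)).rootMultiplicity β : ℤ) *
            ord Q.ring (XM E r x - algebraMap E (MM E K0 r) β) := ⟨_, h1⟩
        exact (hp.dvd_or_dvd h2).resolve_left fun h3 => hβ (by exact_mod_cast h3)
      · rw [ord_sub_ne hM hX hα hαβ]
        exact dvd_zero _
    · rw [ord_inf hM hX hQ (H.f_ne hℓ), Polynomial.natDegree_map] at h1
      rw [ord_sub_inf hM hQ]
      have h2 : (ℓ : ℤ) ∣ (f.natDegree : ℤ) * ord Q.ring (XM E r x) := ⟨_, h1⟩
      exact (hp.dvd_or_dvd h2).resolve_left fun h3 => hd (by exact_mod_cast h3))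
  exact ⟨w, hw⟩

end geo

end Pool.Agent.PDL
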