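import Pool.Agent.Helper45.PD.Unr
import Pool.Agent.Helper59.TW.PX1

/-!
# Project PD: Kummer theory of the level `1 - ζ`
-/

set_option autoImplicit false
set_option linter.unusedSectionVars false

namespace Pool.Agent.PDL

open VC IntermediateField NumberField IsDedekindDomain Pool.Agent.SC
open Pool.Agent.L (L0 MM)
open Pool.Agent.LN (Geo Act)
open Pool.Agent.M (Moves OverPl inL0 Cg moves_comp moves_unique moves_one moves_congr)
open Pool.Agent.ML (HasMu BPl)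
open Pool.Agent.TOW (Au AuE exists_im moves_inv inv_fix)
open Pool.Agent.TOW.KX2aux (X_sub_ne X_sub_tr ord_sub_ne ord_sub_inf pr pr_zero pr_add pr_ne pr_single
  pr_nsmul pr_mem fac ord_fac ord_pr)

section geo

variable {k K0 E U : Type} [Field k] [NumberField k] [Field K0] [Field E] [Field U]
  [Algebra k K0] [Algebra k E] [Algebra E U] [Algebra K0 U] [Algebra k U] [IsScalarTower k E U]
  [IsScalarTower k K0 U] {ℓ : ℕ} {x : K0} {f : Polynomial k} {r : U}

/-- the finite set of the branch points in `E` -/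
noncomputable def RB (k E : Type) [Field k] [Field E] [Algebra k E] (ℓ : ℕ)
    (f : Polynomial k) : Finset E :=
  open scoped Classical in
  (f.map (algebraMap k E)).roots.toFinset.filter fun β =>
    ¬ ℓ ∣ (f.map (algebraMap k E)).rootMultiplicity β

theorem mem_RB {β : E} : β ∈ RB k E ℓ f ↔ ¬ ℓ ∣ (f.map (algebraMap k E)).rootMultiplicity β := by
  classical
  unfold RB
  rw [Finset.mem_filter, Multiset.mem_toFinset]
  refine ⟨fun h => h.2, fun h => ⟨?_, h⟩⟩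
  rw [← Multiset.count_ne_zero, Polynomial.count_roots]
  intro h0
  rw [h0] at h
  exact h (dvd_zero _)

theorem coe_pr {N : IntermediateField E U} (X : N) (n : E →₀ ℤ) :
    ((pr X n : N) : U) = pr (X : U) n := by
  unfold pr
  rw [Finsupp.prod, Finsupp.prod]
  exact map_prod (algebraMap N U) _ _

/-- the decomposition of the elements `w` with `w ^ ℓ ∈ L0` -/
theorem HypL.decomp (H : HypL E ℓ x f r) (hℓ : ℓ.Prime) {ww : E → U}
    (hww : ∀ β ∈ RB k E ℓ f, ww β ^ ℓ = algebraMap K0 U x - algebraMap E U β) {w : U}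
    (hw0 : w ≠ 0) (hw : w ^ ℓ ∈ L0 E K0 (U := U)) :
    ∃ a : E → ℕ, w * ∏ β ∈ RB k E ℓ f, ww β ^ a β ∈ L0 E K0 (U := U) := by
  classical
  have hcl : IsAlgClosed E := H.geo.clE
  have hM := H.geo.cover.ff
  have hXU := H.trU
  obtain ⟨u, hu⟩ : ∃ u : L0 E K0 (U := U), (u : U) = w ^ ℓ := ⟨⟨_, hw⟩, rfl⟩
  have hu0 : u ≠ 0 := by
    rintro rfl
    exact pow_ne_zero ℓ hw0 hu.symm
  obtain ⟨c, n, hc, hcn⟩ := fac H.trL (by rw [H.top_L0]; trivial) hu0
  have hwU : w ^ ℓ = algebraMap E U c * pr (algebraMap K0 U x) n := by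
    rw [← hu, hcn]
    show algebraMap E U c * ((pr (inL0 x : L0 E K0 (U := U)) n : L0 E K0 (U := U)) : U) = _
    rw [coe_pr]
    rfl
  -- the exponents at the other points
  have hdiv : ∀ α : E, α ∉ RB k E ℓ f → (ℓ : ℤ) ∣ n α := by
    intro α hα
    rw [mem_RB, not_not] at hα
    obtain ⟨P, hP, hP1⟩ := H.unr hℓ hα
    have h1 : ((algebraMap E (MM E K0 r) c * pr (XM E r x) n : MM E K0 r) : U) = w ^ ℓ := by
      rw [hwU]
      show algebraMap E U c * ((pr (XM E r x) n : MM E K0 r) : U) = _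
      rw [coe_pr]
      rfl
    have h2 : algebraMap E (MM E K0 r) c * pr (XM E r x) n ≠ 0 :=
      mul_ne_zero ((_root_.map_ne_zero _).2 hc) (pr_ne H.trM n)
    have h3 := H.geo.cover.dvd_ord le_rfl hM h2 h1.symm P
    rw [ord_fac hM H.trM hP hc, hP1, mul_one] at h3
    exact h3
  obtain ⟨a, ha⟩ : ∃ a : E → ℕ, a = fun β => ((-n β) % ℓ).toNat := ⟨_, rfl⟩
  have hℓ0 : (ℓ : ℤ) ≠ 0 := by exact_mod_cast hℓ.ne_zero
  have ha' : ∀ β, (a β : ℤ) = (-n β) % ℓ := by
    intro β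
    rw [ha]
    exact Int.toNat_of_nonneg (Int.emod_nonneg _ hℓ0)
  obtain ⟨s, hs⟩ : ∃ s : E →₀ ℤ, s = ∑ β ∈ RB k E ℓ f, Finsupp.single β (a β : ℤ) := ⟨_, rfl⟩
  have hsv : ∀ α, s α = if α ∈ RB k E ℓ f then (a α : ℤ) else 0 := by
    intro α
    rw [hs, Finsupp.finsetSum_apply]
    by_cases h : α ∈ RB k E ℓ f
    · rw [if_pos h, Finset.sum_eq_single α]
      · rw [Finsupp.single_apply, if_pos rfl]
      · intro b _ hb
        rw [Finsupp.single_apply, if_neg hb]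
      · intro h2
        exact absurd h h2
    · rw [if_neg h]
      refine Finset.sum_eq_zero fun b hb => ?_
      rw [Finsupp.single_apply, if_neg (fun h2 : b = α => h (h2 ▸ hb))]
  have hprs : ∀ S : Finset E, pr (algebraMap K0 U x) (∑ β ∈ S, Finsupp.single β (a β : ℤ)) =
      ∏ β ∈ S, (algebraMap K0 U x - algebraMap E U β) ^ a β := by
    intro S
    induction S using Finset.induction_on with
    | empty => rw [Finset.sum_empty, pr_zero, Finset.prod_empty]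
    | insert b S hb ih =>
      rw [Finset.sum_insert hb, Finset.prod_insert hb, pr_add hXU, ih, pr_single, zpow_natCast]
  have hall : ∀ α, (ℓ : ℤ) ∣ (n + s) α := by
    intro α
    rw [Finsupp.add_apply, hsv]
    by_cases h : α ∈ RB k E ℓ f
    · rw [if_pos h, ha']
      have h1 := Int.emod_add_mul_ediv (-n α) (ℓ : ℤ)
      exact ⟨-((-n α) / ℓ), by linarith⟩
    · rw [if_neg h, add_zero]
      exact hdiv α h
  obtain ⟨m, hm⟩ : ∃ m : E →₀ ℤ, n + s = ℓ • m := by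
    refine ⟨(n + s).mapRange (fun z => z / ℓ) (by simp), ?_⟩
    ext α
    rw [Finsupp.smul_apply, Finsupp.mapRange_apply, nsmul_eq_mul]
    exact (Int.mul_ediv_cancel' (hall α)).symm
  obtain ⟨δ, hδ⟩ := IsAlgClosed.exists_pow_nat_eq c hℓ.pos
  have hδ0 : δ ≠ 0 := by
    rintro rfl
    rw [zero_pow hℓ.ne_zero] at hδ
    exact hc hδ.symm
  have hpm : pr (algebraMap K0 U x) m ≠ 0 := pr_ne hXU m
  have hδU : algebraMap E U δ ≠ 0 := (_root_.map_ne_zero _).2 hδ0
  have h1 : (w * ∏ β ∈ RB k E ℓ f, ww β ^ a β) ^ ℓ =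
      (algebraMap E U δ * pr (algebraMap K0 U x) m) ^ ℓ := by
    have h2 : (∏ β ∈ RB k E ℓ f, ww β ^ a β) ^ ℓ = pr (algebraMap K0 U x) s := by
      rw [hs, hprs, ← Finset.prod_pow]
      refine Finset.prod_congr rfl fun β hβ => ?_
      rw [← pow_mul, mul_comm, pow_mul, hww β hβ]
    rw [mul_pow, hwU, h2, mul_assoc, ← pr_add hXU, hm, pr_nsmul hXU, mul_pow, ← map_pow, hδ]
  obtain ⟨e, he⟩ := root_const (E := E) hℓ.pos
    (ζ := (w * ∏ β ∈ RB k E ℓ f, ww β ^ a β) / (algebraMap E U δ * pr (algebraMap K0 U x) m)) (by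
      rw [div_pow, h1]
      exact div_self (pow_ne_zero _ (mul_ne_zero hδU hpm)))
  refine ⟨a, ?_⟩
  have h3 : w * ∏ β ∈ RB k E ℓ f, ww β ^ a β =
      algebraMap E U e * (algebraMap E U δ * pr (algebraMap K0 U x) m) := by
    rw [he, div_mul_cancel₀]
    exact mul_ne_zero hδU hpm
  rw [h3]
  refine mul_mem ((L0 E K0 (U := U)).algebraMap_mem e) (mul_mem
    ((L0 E K0 (U := U)).algebraMap_mem δ) ?_)
  have h4 : pr (algebraMap K0 U x) m = ((pr (inL0 x : L0 E K0 (U := U)) m : L0 E K0 (U := U)) : U) :=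
    (coe_pr (inL0 x : L0 E K0 (U := U)) m).symm
  rw [h4]
  exact Subtype.coe_prop _

/-- independence -/
theorem HypL.indep (H : HypL E ℓ x f r) (hℓ : ℓ.Prime) {ww : E → U}
    (hww : ∀ β ∈ RB k E ℓ f, ww β ^ ℓ = algebraMap K0 U x - algebraMap E U β) (a : E → ℕ)
    (ha : ∏ β ∈ RB k E ℓ f, ww β ^ a β ∈ L0 E K0 (U := U)) : ∀ β ∈ RB k E ℓ f, ℓ ∣ a β := by
  classical
  have hcl : IsAlgClosed E := H.geo.clE
  have hL := H.geo.ff
  have hX := H.trL
  intro β hβ
  obtain ⟨b, hb⟩ := FF.exists_place (X_sub_tr hX β)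
  obtain ⟨g, hg⟩ : ∃ g : L0 E K0 (U := U), (g : U) = ∏ β ∈ RB k E ℓ f, ww β ^ a β :=
    ⟨⟨_, ha⟩, rfl⟩
  have h1 : g ^ ℓ = ∏ β ∈ RB k E ℓ f, ((inL0 x : L0 E K0 (U := U)) - algebraMap E _ β) ^ a β := by
    apply (algebraMap (L0 E K0 (U := U)) U).injective
    rw [map_prod, map_pow]
    show (g : U) ^ ℓ = _
    rw [hg, ← Finset.prod_pow]
    refine Finset.prod_congr rfl fun γ hγ => ?_
    rw [← pow_mul, mul_comm, pow_mul, hww γ hγ]
    rfl
  have hne : ∀ γ : E, (inL0 x : L0 E K0 (U := U)) - algebraMap E _ γ ≠ 0 := X_sub_ne hX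
  have hg0 : g ≠ 0 := by
    rintro rfl
    rw [zero_pow hℓ.ne_zero] at h1
    exact Finset.prod_ne_zero_iff.2 (fun γ _ => pow_ne_zero _ (hne γ)) h1.symm
  have h2 := FF.ord_pow hL b hg0 ℓ
  rw [h1, FF.ord_prod hL b _ _ fun γ _ => pow_ne_zero _ (hne γ), Finset.sum_eq_single β] at h2
  · rw [FF.ord_pow hL b (hne β), ord_eq_one hL hX hb H.top_L0, mul_one] at h2
    exact Int.natCast_dvd_natCast.1 ⟨_, h2⟩
  · intro γ _ h
    rw [FF.ord_pow hL b (hne γ), ord_sub_ne hL hX hb h, mul_zero]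
  · intro h
    exact absurd hβ h

end geo

end Pool.Agent.PDL
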