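import Pool.Agent.Helper45.PD.YL1

/-!
# Project PD: the normalised roots
-/

set_option autoImplicit false
set_option linter.unusedSectionVars false

namespace Pool.Agent.PDL

open VC IntermediateField NumberField IsDedekindDomain Pool.Agent.SC
open Pool.Agent.L (L0 MM)
open Pool.Agent.LN (Geo Act)
open Pool.Agent.M (Moves OverPl inL0 Cg moves_comp moves_unique moves_one moves_congr cg_const)
open Pool.Agent.ML (HasMu BPl)
open Pool.Agent.TOW (Au AuE exists_im moves_inv inv_fix)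

section cg

variable {E B : Type} [Field E] [Field B] [Algebra E B] {V : ValuationSubring B}
  (hE : ∀ e : E, algebraMap E B e ∈ V)

include hE

theorem cg_pow {x : B} {c : E} (h : Cg V x c) (n : ℕ) : Cg V (x ^ n) (c ^ n) := by
  induction n with
  | zero =>
    have h1 := cg_const (V := V) (1 : E)
    rw [map_one] at h1
    rwa [pow_zero, pow_zero]
  | succ n ih =>
    rw [pow_succ, pow_succ]
    exact ih.mul hE h

theorem cg_prod {ι : Type} (S : Finset ι) {x : ι → B} {c : ι → E} (h : ∀ i ∈ S, Cg V (x i) (c i)) :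
    Cg V (∏ i ∈ S, x i) (∏ i ∈ S, c i) := by
  classical
  induction S using Finset.induction_on with
  | empty =>
    have h1 := cg_const (V := V) (1 : E)
    rwa [map_one] at h1
  | insert i S hi ih =>
    rw [Finset.prod_insert hi, Finset.prod_insert hi]
    exact (h i (Finset.mem_insert_self _ _)).mul hE
      (ih fun j hj => h j (Finset.mem_insert_of_mem hj))

theorem cg_inf {X : B} (hX : X ∉ V) (c : E) : Cg V ((X - algebraMap E B c) / X) (1 : E) := by
  have hX0 : X ≠ 0 := by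
    rintro rfl
    exact hX (zero_mem V)
  unfold Cg
  have h1 : (X - algebraMap E B c) / X - algebraMap E B 1 = -(algebraMap E B c * X⁻¹) := by
    rw [map_one]
    field_simp
    ring
  have h2 : V.valuation X⁻¹ < 1 := by
    rw [map_inv₀]
    have h3 : 1 < V.valuation X := by
      rw [← not_le]
      intro h4
      exact hX ((V.valuation_le_one_iff _).1 h4)
    exact inv_lt_one_of_one_lt₀ h3
  rw [h1, Valuation.map_neg, map_mul]
  exact lt_of_le_of_lt (mul_le_of_le_one_left zero_le ((V.valuation_le_one_iff _).2 (hE c))) h2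

end cg

/-- the roots of `1` as values -/
theorem cg_root {E F : Type} [Field E] [Field F] [Algebra E F] [IsAlgClosed E]
    (hF : IsFunctionField E F) (P : Place E F) {ℓ : ℕ} (hℓ : 0 < ℓ) {z : F}
    (hz : Cg P.ring (z ^ ℓ) (1 : E)) : ∃ q : E, q ^ ℓ = 1 ∧ Cg P.ring z q := by
  have h1 : z ∈ P.ring := by
    have h2 := hz.le P.algebraMap_mem
    rw [map_pow] at h2
    exact (P.ring.valuation_le_one_iff _).1 ((pow_le_one_iff hℓ.ne').1 h2)
  obtain ⟨q, hq⟩ := FF.exists_residue hF P h1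
  rw [ValuationSubring.mem_nonunits_iff] at hq
  exact ⟨q, (cg_pow P.algebraMap_mem hq ℓ).unique P.algebraMap_mem hz, hq⟩

section geo

variable {k K0 E U : Type} [Field k] [NumberField k] [Field K0] [Field E] [Field U]
  [Algebra k K0] [Algebra k E] [Algebra E U] [Algebra K0 U] [Algebra k U] [IsScalarTower k E U]
  [IsScalarTower k K0 U] {ℓ : ℕ} {x : K0} {f : Polynomial k} {r : U}

theorem sum_mult [IsAlgClosed E] (hd : ¬ ℓ ∣ f.natDegree) :
    ¬ ℓ ∣ ∑ β ∈ RB k E ℓ f, (f.map (algebraMap k E)).rootMultiplicity β := by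
  classical
  intro h
  apply hd
  have h1 : f.natDegree = ∑ a ∈ (f.map (algebraMap k E)).roots.toFinset,
      (f.map (algebraMap k E)).rootMultiplicity a := by
    rw [← Polynomial.natDegree_map (algebraMap k E),
      (IsAlgClosed.splits (f.map (algebraMap k E))).natDegree_eq_card_roots,
      ← Multiset.toFinset_sum_count_eq]
    simp only [Polynomial.count_roots]
  rw [h1, ← Finset.sum_filter_add_sum_filter_not _
    (fun β => ¬ ℓ ∣ (f.map (algebraMap k E)).rootMultiplicity β)]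
  refine dvd_add ?_ (Finset.dvd_sum fun a ha => not_not.1 (Finset.mem_filter.1 ha).2)
  unfold RB at h
  convert h

theorem mult_gal (σ : E ≃ₐ[k] E) (β : E) : (f.map (algebraMap k E)).rootMultiplicity (σ β) =
    (f.map (algebraMap k E)).rootMultiplicity β := by
  have h1 : (f.map (algebraMap k E)).map (σ : E →+* E) = f.map (algebraMap k E) := by
    rw [Polynomial.map_map]
    congr 1
    ext a
    exact σ.commutes a
  have h2 := Polynomial.eq_rootMultiplicity_map (p := f.map (algebraMap k E)) (f := (σ : E →+* E))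
    σ.injective β
  rw [h1] at h2
  exact h2.symm

theorem RB_gal (σ : E ≃ₐ[k] E) {β : E} : σ β ∈ RB k E ℓ f ↔ β ∈ RB k E ℓ f := by
  rw [mem_RB, mem_RB, mult_gal]

theorem HypL.act_ww (H : HypL E ℓ x f r) (hℓ : ℓ.Prime) {ww : E → U}
    (hww : ∀ β ∈ RB k E ℓ f, ww β ^ ℓ = algebraMap K0 U x - algebraMap E U β) (σ : E ≃ₐ[k] E)
    {T : U ≃+* U} (hK : T (algebraMap K0 U x) = algebraMap K0 U x)
    (hE : ∀ e : E, T (algebraMap E U e) = algebraMap E U (σ e)) {β : E} (hβ : β ∈ RB k E ℓ f) :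
    ∃ z : E, z ^ ℓ = 1 ∧ T (ww β) = algebraMap E U z * ww (σ β) := by
  have hcl : IsAlgClosed E := H.geo.clE
  have h1 := hww (σ β) ((RB_gal σ).2 hβ)
  have h0 := H.ww_ne hℓ h1
  obtain ⟨z, hz⟩ := root_const (E := E) hℓ.pos (ζ := T (ww β) / ww (σ β)) (by
    rw [div_pow, ← map_pow, hww β hβ, map_sub, hK, hE, h1]
    exact div_self (H.sub_ne _))
  refine ⟨z, ?_, ?_⟩
  · apply (algebraMap E U).injective
    rw [map_pow, hz, map_one, div_pow, ← map_pow, hww β hβ, map_sub, hK, hE, h1]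
    exact div_self (H.sub_ne _)
  · rw [hz, div_mul_cancel₀ _ h0]

/-- **the normalising element** -/
theorem HypL.exists_t (H : HypL E ℓ x f r) (hℓ : ℓ.Prime) (hd : ¬ ℓ ∣ f.natDegree) {ww : E → U}
    (hww : ∀ β ∈ RB k E ℓ f, ww β ^ ℓ = algebraMap K0 U x - algebraMap E U β) :
    ∃ t : U, t ≠ 0 ∧ t ∈ YL E K0 ℓ (U := U) ∧
      (∀ (σ : E ≃ₐ[k] E) (T : U ≃+* U), T (algebraMap K0 U x) = algebraMap K0 U x →
        (∀ e : E, T (algebraMap E U e) = algebraMap E U (σ e)) →
        ∃ c : E, c ^ ℓ = 1 ∧ T t = algebraMap E U c * t) ∧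
      ∀ Q : Place E (YL E K0 ℓ (U := U)), PoleAt x Q → ∀ β ∈ RB k E ℓ f,
        ∀ z : YL E K0 ℓ (U := U), (z : U) = ww β / t → Cg Q.ring (z ^ ℓ) (1 : E) := by
  classical
  have hcl : IsAlgClosed E := H.geo.clE
  obtain ⟨m, hm⟩ : ∃ m : E → ℕ, m = fun β => (f.map (algebraMap k E)).rootMultiplicity β :=
    ⟨_, rfl⟩
  have hms : ∀ (σ : E ≃ₐ[k] E) (β : E), m (σ β) = m β := by
    intro σ β
    rw [hm]
    exact mult_gal σ β
  obtain ⟨M, hM⟩ : ∃ M, M = ∑ β ∈ RB k E ℓ f, m β := ⟨_, rfl⟩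
  have hMℓ : ¬ ℓ ∣ M := by
    rw [hM, hm]
    exact sum_mult hd
  obtain ⟨M', s, hMs⟩ : ∃ M' s : ℕ, M * M' = 1 + ℓ * s := by
    obtain ⟨M', -, h1⟩ := Nat.exists_mul_mod_eq_one_of_coprime
      (((Nat.Prime.coprime_iff_not_dvd hℓ).2 hMℓ).symm) hℓ.one_lt
    refine ⟨M', M * M' / ℓ, ?_⟩
    have h2 := Nat.div_add_mod (M * M') ℓ
    rw [h1] at h2
    omega
  obtain ⟨W, hW⟩ : ∃ W : U, W = ∏ γ ∈ RB k E ℓ f, ww γ ^ m γ := ⟨_, rfl⟩
  have hW0 : W ≠ 0 := by
    rw [hW]
    exact Finset.prod_ne_zero_iff.2 fun β hβ => pow_ne_zero _ (H.ww_ne hℓ (hww β hβ))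
  have hx0 : algebraMap K0 U x ≠ 0 := by
    have h1 := H.sub_ne (0 : E)
    rwa [map_zero, sub_zero] at h1
  have hWY : W ∈ YL E K0 ℓ (U := U) := by
    rw [hW]
    exact prod_mem fun β hβ => pow_mem (H.ww_mem (hww β hβ)) _
  refine ⟨W ^ M' / algebraMap K0 U x ^ s, div_ne_zero (pow_ne_zero _ hW0) (pow_ne_zero _ hx0),
    div_mem (pow_mem hWY _) (pow_mem (K_mem_YL x) _), ?_, ?_⟩
  · intro σ T hK hE
    have h1 : ∀ β : E, ∃ z : E, z ^ ℓ = 1 ∧ (β ∈ RB k E ℓ f →
        T (ww β) = algebraMap E U z * ww (σ β)) := by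
      intro β
      by_cases hβ : β ∈ RB k E ℓ f
      · obtain ⟨z, hz, h2⟩ := H.act_ww hℓ hww σ hK hE hβ
        exact ⟨z, hz, fun _ => h2⟩
      · exact ⟨1, one_pow _, fun h => absurd h hβ⟩
    choose χ hχ hT using h1
    have h2 : T W = algebraMap E U (∏ γ ∈ RB k E ℓ f, χ γ ^ m γ) * W := by
      have h3 : ∏ γ ∈ RB k E ℓ f, ww (σ γ) ^ m γ = W := by
        rw [hW]
        refine Finset.prod_nbij' (fun γ => σ γ) (fun γ => σ.symm γ) ?_ ?_ ?_ ?_ ?_
        · intro γ hγ
          exact (RB_gal σ).2 hγ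
        · intro γ hγ
          exact (RB_gal σ.symm).2 hγ
        · intro γ _
          exact σ.symm_apply_apply γ
        · intro γ _
          exact σ.apply_symm_apply γ
        · intro γ _
          rw [hms]
      have h4 : T W = ∏ γ ∈ RB k E ℓ f, (algebraMap E U (χ γ ^ m γ) * ww (σ γ) ^ m γ) := by
        rw [hW, map_prod]
        refine Finset.prod_congr rfl fun γ hγ => ?_
        rw [map_pow, hT γ hγ, mul_pow, map_pow]
      rw [h4, Finset.prod_mul_distrib, h3, map_prod]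
    refine ⟨(∏ γ ∈ RB k E ℓ f, χ γ ^ m γ) ^ M', ?_, ?_⟩
    · rw [← pow_mul, mul_comm, pow_mul, ← Finset.prod_pow]
      rw [Finset.prod_eq_one, one_pow]
      intro γ _
      rw [← pow_mul, mul_comm, pow_mul, hχ, one_pow]
    · rw [map_div₀, map_pow, map_pow, h2, hK, mul_pow, map_pow, mul_div_assoc]
  · intro Q hQ β hβ z hz
    obtain ⟨X, hX⟩ : ∃ X : YL E K0 ℓ (U := U), X = ⟨algebraMap K0 U x, K_mem_YL x⟩ := ⟨_, rfl⟩
    have hXQ : X ∉ Q.ring := by
      rw [hX]
      exact hQ (K_mem_YL x)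
    have hXU : (X : U) = algebraMap K0 U x := by rw [hX]
    have hX0 : X ≠ 0 := by
      rintro rfl
      exact hXQ (zero_mem _)
    have h1 : z ^ ℓ = (X - algebraMap E _ β) / X *
        ((∏ γ ∈ RB k E ℓ f, ((X - algebraMap E _ γ) / X) ^ m γ) ^ M')⁻¹ := by
      have h2 : z ^ ℓ * ((∏ γ ∈ RB k E ℓ f, ((X - algebraMap E _ γ)) ^ m γ) ^ M') =
          (X - algebraMap E _ β) * X ^ (ℓ * s) := by
        apply (algebraMap (YL E K0 ℓ (U := U)) U).injective
        rw [map_mul, map_mul, map_pow, map_pow, map_prod, map_pow, map_sub]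
        show (z : U) ^ ℓ * (∏ γ ∈ RB k E ℓ f, algebraMap (YL E K0 ℓ (U := U)) U
          ((X - algebraMap E _ γ) ^ m γ)) ^ M' = ((X : U) - algebraMap E U β) * (X : U) ^ (ℓ * s)
        have h3 : ∏ γ ∈ RB k E ℓ f, algebraMap (YL E K0 ℓ (U := U)) U
            ((X - algebraMap E _ γ) ^ m γ) = W ^ ℓ := by
          rw [hW, ← Finset.prod_pow]
          refine Finset.prod_congr rfl fun γ hγ => ?_
          rw [map_pow, map_sub, ← pow_mul, mul_comm (m γ), pow_mul, hww γ hγ]
          congr 1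
          show (X : U) - algebraMap E U γ = _
          rw [hXU]
        rw [h3, hz, hXU, div_pow, hww β hβ, div_pow, ← pow_mul, ← pow_mul, ← pow_mul,
          mul_comm ℓ M', mul_comm s ℓ]
        field_simp
      have h4 : (∏ γ ∈ RB k E ℓ f, ((X - algebraMap E _ γ) / X) ^ m γ) ^ M' * X ^ (1 + ℓ * s) =
          (∏ γ ∈ RB k E ℓ f, ((X - algebraMap E _ γ)) ^ m γ) ^ M' := by
        rw [← hMs, pow_mul, ← mul_pow, hM, ← Finset.prod_pow_eq_pow_sum, ← Finset.prod_mul_distrib]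
        congr 1
        refine Finset.prod_congr rfl fun γ _ => ?_
        rw [← mul_pow, div_mul_cancel₀ _ hX0]
      have h5 : (∏ γ ∈ RB k E ℓ f, ((X - algebraMap E _ γ) / X) ^ m γ) ^ M' ≠ 0 := by
        intro h6
        rw [h6, zero_mul] at h4
        refine pow_ne_zero M' (Finset.prod_ne_zero_iff.2 fun γ hγ => pow_ne_zero (m γ) ?_) h4.symm
        intro h7
        apply H.sub_ne γ
        have h8 := congrArg (algebraMap (YL E K0 ℓ (U := U)) U) h7
        rw [map_zero, map_sub] at h8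
        have h9 : (X : U) - algebraMap E U γ = 0 := h8
        rwa [hXU] at h9
      rw [eq_mul_inv_iff_mul_eq₀ h5, eq_div_iff hX0]
      have h6 : X ^ (ℓ * s) ≠ 0 := pow_ne_zero _ hX0
      apply mul_right_cancel₀ h6
      rw [← h2, ← h4, pow_add, pow_one]
      ring
    rw [h1]
    have h2 : Cg Q.ring ((∏ γ ∈ RB k E ℓ f, ((X - algebraMap E _ γ) / X) ^ m γ) ^ M') (1 : E) := by
      have h3 := cg_pow Q.algebraMap_mem (cg_prod Q.algebraMap_mem (RB k E ℓ f) (c := fun _ => 1)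
        fun γ _ => by
          have h4 := cg_pow Q.algebraMap_mem (cg_inf Q.algebraMap_mem hXQ γ) (m γ)
          rwa [one_pow] at h4) M'
      rwa [Finset.prod_const_one, one_pow] at h3
    have h3 := (cg_inf Q.algebraMap_mem hXQ β).mul Q.algebraMap_mem
      (h2.inv Q.algebraMap_mem one_ne_zero)
    rwa [inv_one, mul_one] at h3

end geo

end Pool.Agent.PDL
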