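import Pool.Agent.Helper45.PD.Tt

/-!
# Project PD: the places of `YL` over infinity are determined by their values
-/

set_option autoImplicit false
set_option linter.unusedSectionVars false

namespace Pool.Agent.PDL

open VC IntermediateField NumberField IsDedekindDomain Pool.Agent.SC
open Pool.Agent.L (L0 MM)
open Pool.Agent.LN (Geo Act)
open Pool.Agent.M (Moves OverPl inL0 Cg moves_comp moves_unique moves_one moves_congr moves_pow
  cg_const)
open Pool.Agent.ML (HasMu BPl)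
open Pool.Agent.TOW (Au AuE exists_im moves_inv inv_fix conj59 above59 below59 auE59)

/-- the rule for the values -/
theorem val_rule {E U : Type} [Field E] [Field U] [Algebra E U] {N : IntermediateField E U}
    {σ : E ≃+* E} {T : U ≃+* U} (hE : ∀ e, T (algebraMap E U e) = algebraMap E U (σ e))
    {Q Q' : Place E N} (hQ : Moves T N Q Q') {v v' : U} (hv : v ∈ N) (hv' : v' ∈ N) {z : E}
    (hT : T v = algebraMap E U z * v') {q q' : E} (h : Cg Q.ring (⟨v, hv⟩ : N) q)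
    (h' : Cg Q'.ring (⟨v', hv'⟩ : N) q') : σ q = z * q' := by
  have hTv : T v ∈ N := by
    rw [hT]
    exact mul_mem (N.algebraMap_mem z) hv'
  have h1 := (Moves.cg hE hQ hv hTv).1 h
  have e : (⟨T v, hTv⟩ : N) = algebraMap E N z * ⟨v', hv'⟩ := Subtype.ext hT
  rw [e] at h1
  exact h1.unique Q'.algebraMap_mem ((cg_const z).mul Q'.algebraMap_mem h')

theorem adj_inv {E F : Type} [Field E] [Field F] [Algebra E F] (X : F) : E⟮X⁻¹⟯ = E⟮X⟯ := by
  apply le_antisymm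
  · rw [IntermediateField.adjoin_simple_le_iff]
    exact inv_mem (mem_adjoin_simple_self E X)
  · rw [IntermediateField.adjoin_simple_le_iff]
    have h1 := inv_mem (mem_adjoin_simple_self E X⁻¹)
    rwa [inv_inv] at h1

/-- two different poles -/
theorem two_poles {E F : Type} [Field E] [IsAlgClosed E] [Field F] [Algebra E F] (hF : IsFunctionField E F) {X : F}
    (hX : Transcendental E X) {n m : ℤ} (hn : (Module.finrank E⟮X⟯ F : ℤ) ≤ n) {P P' : Place E F}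
    (hP : X ∉ P.ring) (hP' : X ∉ P'.ring) (h : m ≤ -ord P.ring X) (h' : m ≤ -ord P'.ring X)
    (hm : n < m + m) : P = P' := by
  classical
  by_contra hne
  have hX0 : X ≠ 0 := by
    rintro rfl
    exact hX isAlgebraic_zero
  have hnon : ∀ Q : Place E F, X ∉ Q.ring → X⁻¹ ∈ Q.ring.nonunits := by
    intro Q hQ
    rw [← FF.ord_pos_iff hF Q (inv_ne_zero hX0), FF.ord_inv hF Q hX0]
    by_contra hcon
    apply hQ
    rw [← FF.ord_nonneg_iff hF Q hX0]
    omega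
  have h1 := FF.sum_ord_le hF (FF.transcendental_inv' hX) {P, P'} (fun Q hQ => by
    rw [Finset.mem_insert, Finset.mem_singleton] at hQ
    rcases hQ with rfl | rfl
    · exact hnon _ hP
    · exact hnon _ hP')
  rw [Finset.sum_pair hne, FF.ord_inv hF P hX0, FF.ord_inv hF P' hX0, adj_inv] at h1
  omega

section geo

variable {k K0 E U : Type} [Field k] [NumberField k] [Field K0] [Field E] [Field U]
  [Algebra k K0] [Algebra k E] [Algebra E U] [Algebra K0 U] [Algebra k U] [IsScalarTower k E U]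
  [IsScalarTower k K0 U] {ℓ : ℕ} {x : K0} {f : Polynomial k} {r : U}

/-- the place of `L0` over infinity -/
theorem HypL.infL0 (H : HypL E ℓ x f r) {b b' : Place E (L0 E K0 (U := U))}
    (hb : (inL0 x : L0 E K0 (U := U)) ∉ b.ring) (hb' : (inL0 x : L0 E K0 (U := U)) ∉ b'.ring) :
    b = b' := by
  have hcl : IsAlgClosed E := H.geo.clE
  have hX0 : (inL0 x : L0 E K0 (U := U)) ≠ 0 := by
    intro h
    rw [h] at hb
    exact hb (zero_mem _)
  have hpos : ∀ Q : Place E (L0 E K0 (U := U)), (inL0 x : L0 E K0 (U := U)) ∉ Q.ring →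
      1 ≤ -ord Q.ring (inL0 x : L0 E K0 (U := U)) := by
    intro Q hQ
    by_contra hcon
    apply hQ
    rw [← FF.ord_nonneg_iff H.geo.ff Q hX0]
    omega
  refine two_poles H.geo.ff H.trL (n := 1) (m := 1) ?_ hb hb' (hpos _ hb) (hpos _ hb') (by norm_num)
  rw [H.top_L0, IntermediateField.finrank_top]
  norm_num

/-- the place of `MM` over infinity, if infinity is a branch point -/
theorem HypL.infMM (H : HypL E ℓ x f r) (hℓ : ℓ.Prime) (hd : ¬ ℓ ∣ f.natDegree)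
    {P P' : Place E (MM E K0 r)} (hP : XM E r x ∉ P.ring) (hP' : XM E r x ∉ P'.ring) :
    P = P' := by
  have hcl : IsAlgClosed E := H.geo.clE
  have hM := H.geo.cover.ff
  have hp : Prime (ℓ : ℤ) := Nat.prime_iff_prime_int.1 hℓ
  have hX0 : XM E r x ≠ 0 := by
    intro h
    rw [h] at hP
    exact hP (zero_mem _)
  have hr0 : (⟨r, r_mem⟩ : MM E K0 r) ≠ 0 := fun h => H.r_ne hℓ (congrArg Subtype.val h)
  have hpos : ∀ Q : Place E (MM E K0 r), XM E r x ∉ Q.ring →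
      (ℓ : ℤ) ≤ -ord Q.ring (XM E r x) := by
    intro Q hQ
    have h1 := FF.ord_pow hM Q hr0 ℓ
    rw [H.rpow', ord_inf hM H.trM hQ (H.f_ne hℓ), Polynomial.natDegree_map] at h1
    have h2 : (ℓ : ℤ) ∣ (f.natDegree : ℤ) * ord Q.ring (XM E r x) := ⟨_, h1⟩
    have h3 := (hp.dvd_or_dvd h2).resolve_left fun h3 => hd (by exact_mod_cast h3)
    refine Int.le_of_dvd ?_ ((dvd_neg).2 h3)
    by_contra hcon
    apply hQ
    rw [← FF.ord_nonneg_iff hM Q hX0]
    omega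
  refine two_poles hM H.trM (n := ℓ) (m := ℓ) ?_ hP hP' (hpos _ hP) (hpos _ hP') ?_
  · have h1 := H.finrank_le hℓ 0
    rw [map_zero, sub_zero] at h1
    exact_mod_cast h1
  · have := hℓ.pos
    omega

theorem HypL.agree (H : HypL E ℓ x f r) (hℓ : ℓ.Prime) {ww : E → U}
    (hww : ∀ β ∈ RB k E ℓ f, ww β ^ ℓ = algebraMap K0 U x - algebraMap E U β) {T T' : U ≃+* U}
    (hL : ∀ z ∈ L0 E K0 (U := U), T z = T' z) (h : ∀ β ∈ RB k E ℓ f, T (ww β) = T' (ww β)) :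
    ∀ z ∈ YL E K0 ℓ (U := U), T z = T' z := by
  refine eq_on_YL hL fun w hw => ?_
  by_cases h0 : w = 0
  · rw [h0, map_zero, map_zero]
  · obtain ⟨a, ha⟩ := H.decomp hℓ hww h0 hw
    have h1 := hL _ ha
    have h2 : T (∏ β ∈ RB k E ℓ f, ww β ^ a β) = T' (∏ β ∈ RB k E ℓ f, ww β ^ a β) := by
      rw [map_prod, map_prod]
      refine Finset.prod_congr rfl fun β hβ => ?_
      rw [map_pow, map_pow, h β hβ]
    have h3 : ∏ β ∈ RB k E ℓ f, ww β ^ a β ≠ 0 :=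
      Finset.prod_ne_zero_iff.2 fun β hβ => pow_ne_zero _ (H.ww_ne hℓ (hww β hβ))
    rw [map_mul, map_mul, h2] at h1
    exact mul_right_cancel₀ ((map_ne_zero T').2 h3) h1

/-- an automorphism which preserves the values multiplies all roots by the same scalar -/
theorem HypL.scalar (H : HypL E ℓ x f r) (hℓ : ℓ.Prime) {ww : E → U}
    (hww : ∀ β ∈ RB k E ℓ f, ww β ^ ℓ = algebraMap K0 U x - algebraMap E U β) {t : U}
    (htY : t ∈ YL E K0 ℓ (U := U)) {T : U ≃+* U} (hT : AuE E K0 T) {c : E} (hc : c ^ ℓ = 1)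
    (hTt : T t = algebraMap E U c * t) {Q Q' : Place E (YL E K0 ℓ (U := U))}
    (hm : Moves T _ Q Q') (hv : ∀ β ∈ RB k E ℓ f, ∀ z : YL E K0 ℓ (U := U), (z : U) = ww β / t →
      ∃ q : E, q ≠ 0 ∧ Cg Q.ring z q ∧ Cg Q'.ring z q) :
    ∀ β ∈ RB k E ℓ f, T (ww β) = algebraMap E U c * ww β := by
  intro β hβ
  have hcl : IsAlgClosed E := H.geo.clE
  have hvY : ww β / t ∈ YL E K0 ℓ (U := U) := div_mem (H.ww_mem (hww β hβ)) htY
  obtain ⟨χ, hχ, hTw⟩ := eig_root (E := E) hℓ.pos (H.ww_ne hℓ (hww β hβ)) (T := T) (by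
    rw [hww β hβ, map_sub, hT.fixK, hT.fixE])
  obtain ⟨q, hq0, hq, hq'⟩ := hv β hβ ⟨_, hvY⟩ rfl
  have hc0 : c ≠ 0 := by
    rintro rfl
    rw [zero_pow hℓ.ne_zero] at hc
    exact zero_ne_one hc
  have h1 : T (ww β / t) = algebraMap E U (χ / c) * (ww β / t) := by
    rw [map_div₀, hTw, hTt, map_div₀, mul_div_mul_comm]
  have h2 := val_rule (σ := RingEquiv.refl E) hT.fixE hm hvY hvY h1 hq hq'
  rw [RingEquiv.refl_apply] at h2
  have h3 : χ / c = 1 := by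
    have h4 : 1 * q = χ / c * q := by rw [one_mul]; exact h2
    exact (mul_right_cancel₀ hq0 h4).symm
  rw [hTw, (div_eq_one_iff_eq hc0).1 h3]

/-- **the places over infinity are determined by the values** -/
theorem HypL.uniq (H : HypL E ℓ x f r) (hℓ : ℓ.Prime) (hd : ¬ ℓ ∣ f.natDegree) {ww : E → U}
    (hww : ∀ β ∈ RB k E ℓ f, ww β ^ ℓ = algebraMap K0 U x - algebraMap E U β) {t : U}
    (htY : t ∈ YL E K0 ℓ (U := U))
    (htT : ∀ T : U ≃+* U, AuE E K0 T → ∃ c : E, c ^ ℓ = 1 ∧ T t = algebraMap E U c * t)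
    {Q Q' : Place E (YL E K0 ℓ (U := U))} (hQ : PoleAt x Q) (hQ' : PoleAt x Q')
    (hv : ∀ β ∈ RB k E ℓ f, ∀ z : YL E K0 ℓ (U := U), (z : U) = ww β / t →
      ∃ q : E, q ≠ 0 ∧ Cg Q.ring z q ∧ Cg Q'.ring z q) : Q = Q' := by
  have hcl : IsAlgClosed E := H.geo.clE
  have := H.chU
  have hgal := gal_L0 (E := E) H.geo.normal
  have halg : Algebra.IsAlgebraic (L0 E K0 (U := U)) U := inferInstance
  have hgalM : IsGalois (MM E K0 r) U := H.geo.cover.gal
  have halgM : Algebra.IsAlgebraic (MM E K0 r) U := inferInstance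
  have hMY : MM E K0 r ≤ YL E K0 ℓ (U := U) := MM_le_YL H.geo.rpow
  have hLY : L0 E K0 (U := U) ≤ YL E K0 ℓ (U := U) := L0_le_YL
  -- the automorphism `T`
  obtain ⟨b, hb⟩ := below59 (N := L0 E K0 (U := U)) Q
  obtain ⟨b', hb'⟩ := below59 (N := L0 E K0 (U := U)) Q'
  have hbb : b = b' := H.infL0
    (fun h => hQ (K_mem_YL x) ((hb _ (K_mem x) (K_mem_YL x)).1 h))
    (fun h => hQ' (K_mem_YL x) ((hb' _ (K_mem x) (K_mem_YL x)).1 h))
  subst hbb
  obtain ⟨T, hTL, hTm⟩ := conj59 (L := L0 E K0 (U := U)) hLY Q Q' fun z hz =>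
    (hb z hz (hLY hz)).symm.trans (hb' z hz (hLY hz))
  have hT := auE59 hTL
  obtain ⟨c, hc, hTt⟩ := htT T hT
  have hTw := H.scalar hℓ hww htY hT hc hTt hTm hv
  -- the element of inertia
  obtain ⟨T₁, ζ, hT₁, hζ, hT₁r⟩ := H.exists_T hℓ
  obtain ⟨Q₁, hQ₁⟩ := exists_im (N := YL E K0 ℓ (U := U)) (au_YL hT₁.au) (au_YL hT₁.inv.au)
    hT₁.inv.au.presE Q
  have hQ₁x : PoleAt x Q₁ := by
    intro hx hmem
    have h1 := hQ₁ _ (K_mem_YL (ℓ := ℓ) (E := E) x) (by rw [hT₁.fixK]; exact hx)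
    have h2 : (⟨T₁ (algebraMap K0 U x), by rw [hT₁.fixK]; exact hx⟩ : YL E K0 ℓ (U := U)) =
      ⟨algebraMap K0 U x, hx⟩ := Subtype.ext (hT₁.fixK x)
    rw [h2] at h1
    exact hQ _ (h1.2 hmem)
  obtain ⟨P, hP⟩ := below59 (N := MM E K0 r) Q
  obtain ⟨P₁, hP₁⟩ := below59 (N := MM E K0 r) Q₁
  have hPP : P = P₁ := H.infMM hℓ hd
    (fun h => hQ (K_mem_YL x) ((hP _ (L0_le_MM (K_mem x)) (K_mem_YL x)).1 h))
    (fun h => hQ₁x (K_mem_YL x) ((hP₁ _ (L0_le_MM (K_mem x)) (K_mem_YL x)).1 h))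
  subst hPP
  obtain ⟨T₂, hT₂M, hT₂m⟩ := conj59 (L := MM E K0 r) hMY Q₁ Q fun z hz =>
    (hP₁ z hz (hMY hz)).symm.trans (hP z hz (hMY hz))
  have hT₂ : AuE E K0 T₂ := auE59 fun z hz => hT₂M z (L0_le_MM hz)
  obtain ⟨T₀, hT₀e⟩ : ∃ T₀, T₀ = T₂ * T₁ := ⟨_, rfl⟩
  have hT₀ : AuE E K0 T₀ := by rw [hT₀e]; exact hT₂.mul hT₁
  have hT₀m : Moves T₀ _ Q Q := by
    rw [hT₀e]
    exact moves_comp (au_YL hT₁.au) hQ₁ hT₂m
  have hT₀r : T₀ r = algebraMap E U ζ * r := by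
    rw [hT₀e]
    show T₂ (T₁ r) = _
    rw [hT₁r, map_mul, hT₂.fixE, hT₂M r r_mem]
  obtain ⟨c₀, hc₀, hT₀t⟩ := htT T₀ hT₀
  have hT₀w := H.scalar hℓ hww htY hT₀ hc₀ hT₀t hT₀m (fun β hβ z hz => by
    obtain ⟨q, hq0, hq, -⟩ := hv β hβ z hz
    exact ⟨q, hq0, hq, hq⟩)
  have hc₀1 : c₀ ≠ 1 := by
    rintro rfl
    have h1 := H.agree hℓ hww (T := T₀) (T' := 1) (fun z hz => hT₀.onL0 z hz) (fun β hβ => by
      rw [hT₀w β hβ, map_one, one_mul]
      rfl) r (hMY r_mem)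
    have h2 : T₀ r = r := h1
    rw [hT₀r] at h2
    have h3 : algebraMap E U ζ = 1 := by
      apply mul_right_cancel₀ (H.r_ne hℓ)
      rw [h2, one_mul]
    have h4 : ζ = 1 := (algebraMap E U).injective (by rw [h3, map_one])
    exact hζ.ne_one hℓ.one_lt h4
  have : Fact ℓ.Prime := ⟨hℓ⟩
  have : NeZero ℓ := ⟨hℓ.ne_zero⟩
  have hc₀p : IsPrimitiveRoot c₀ ℓ := by
    have h3 : orderOf c₀ = ℓ := orderOf_eq_prime hc₀ hc₀1
    rw [← h3]
    exact IsPrimitiveRoot.orderOf c₀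
  obtain ⟨i, -, hi⟩ := hc₀p.eq_pow_of_pow_eq_one hc
  have hpow : ∀ (j : ℕ), ∀ β ∈ RB k E ℓ f, (T₀ ^ j) (ww β) = algebraMap E U (c₀ ^ j) * ww β := by
    intro j β hβ
    induction j with
    | zero => simp
    | succ j ih =>
      rw [pow_succ']
      show T₀ ((T₀ ^ j) (ww β)) = _
      rw [ih, map_mul, hT₀.fixE, hT₀w β hβ, pow_succ, map_mul, mul_assoc]
  have hag := H.agree hℓ hww (T := T₀ ^ i) (T' := T)
    (fun z hz => by rw [(auE_pow hT₀ i).onL0 z hz, hT.onL0 z hz])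
    (fun β hβ => by rw [hpow i β hβ, hTw β hβ, hi])
  have hm1 : Moves T _ Q Q := moves_congr hag (moves_pow (au_YL hT₀.au) hT₀m i)
  exact moves_unique (T := T) (au_YL hT.inv.au) hm1 hTm

end geo

end Pool.Agent.PDL
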