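import Pool.Agent.Helper45.PD.Coord

/-!
# Project PD, block YL1: the level `1 - ζ` is a finite level
-/

set_option autoImplicit false
set_option linter.unusedSectionVars false

namespace Pool.Agent.PDL

open VC IntermediateField NumberField IsDedekindDomain Pool.Agent.SC
open Pool.Agent.L (L0 MM)
open Pool.Agent.LN (Geo Act)
open Pool.Agent.M (Moves OverPl inL0)
open Pool.Agent.ML (HasMu BPl)
open Pool.Agent.TOW (Au AuE)

section geo

variable {k K0 E U : Type} [Field k] [NumberField k] [Field K0] [Field E] [Field U]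
  [Algebra k K0] [Algebra k E] [Algebra E U] [Algebra K0 U] [Algebra k U] [IsScalarTower k E U]
  [IsScalarTower k K0 U] {ℓ : ℕ} {x : K0} {f : Polynomial k} {r : U}

theorem HypL.ffY' (H : HypL E ℓ x f r) (hℓ : ℓ.Prime) (hbr : ∃ u : K0, IsRatBr ℓ x f u) :
    IsFunctionField E (YL E K0 ℓ (U := U)) := by
  obtain ⟨u, ⟨-, hd⟩ | ⟨α, hα, -⟩⟩ := hbr
  · exact H.ffY hℓ hd
  · obtain ⟨F, s, -, hd, H'⟩ := H.coord hℓ hα
    exact H'.ffY hℓ hd

end geo

theorem yL1 : StmtYL1 := by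
  intro k K0 E U _ _ _ _ _ _ _ _ _ _ _ _ ℓ x f r hℓ H hbr
  have hcl : IsAlgClosed E := H.geo.clE
  refine ⟨H.ffY' hℓ hbr, fun y => K_mem_YL y, MM_le_YL H.geo.rpow, ?_, ?_, ?_⟩
  · intro T hT hE z hz
    exact au_YL ⟨hT, hE⟩ z hz
  · intro a ha z hz
    have h1 : AuE E K0 (a : U ≃+* U) := ⟨fun y => ha _ (K_mem y), fun e => a.commutes e⟩
    have h2 := pow_fix_YL (ℓ := ℓ) hℓ.pos h1 z hz
    have h3 : ∀ (n : ℕ) (z : U), (a ^ n) z = ((a : U ≃+* U) ^ n) z := by
      intro n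
      induction n with
      | zero => intro z; rfl
      | succ n ih =>
        intro z
        rw [pow_succ, pow_succ]
        show (a ^ n) (a z) = ((a : U ≃+* U) ^ n) ((a : U ≃+* U) z)
        rw [ih]
        rfl
    rw [h3]
    exact h2
  · intro a b ha hb z hz
    have h1 : AuE E K0 (a : U ≃+* U) := ⟨fun y => ha _ (K_mem y), fun e => a.commutes e⟩
    have h2 : AuE E K0 (b : U ≃+* U) := ⟨fun y => hb _ (K_mem y), fun e => b.commutes e⟩
    exact comm_YL (ℓ := ℓ) hℓ.pos h1 h2 z hz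

end Pool.Agent.PDL
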